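import Pool.Agent.helper12.DD.Spec

set_option autoImplicit false

open Pool.Agent.helper49.Blk

namespace Pool.Agent.DD

lemma OPE_sup {G : Type} [Group G] [Finite G] (p : ℕ) (hp : p.Prime) (H P Q : Subgroup G)
    (hP : P ≤ H ∧ IsPGroup p P ∧ H ≤ Subgroup.normalizer (P : Set G))
    (hQ : Q ≤ H ∧ IsPGroup p Q ∧ H ≤ Subgroup.normalizer (Q : Set G)) :
    (P ⊔ Q) ≤ H ∧ IsPGroup p ↥(P ⊔ Q) ∧ H ≤ Subgroup.normalizer ((P ⊔ Q : Subgroup G) : Set G) := by
  refine ⟨sup_le hP.1 hQ.1, ?_, ?_⟩
  · exact hP.2.1.to_sup_of_normal_right' hQ.2.1 (hP.1.trans hQ.2.2)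
  · intro h hh
    have h1 := hP.2.2 hh
    have h2 := hQ.2.2 hh
    rw [Subgroup.mem_normalizer_iff] at h1 h2 ⊢
    have key : (P ⊔ Q).map (MulAut.conj h).toMonoidHom = P ⊔ Q := by
      rw [Subgroup.map_sup]
      congr 1
      · ext x
        constructor
        · rintro ⟨y, hy, rfl⟩
          exact (h1 y).1 hy
        · intro hx
          refine ⟨h⁻¹ * x * h, ?_, ?_⟩
          · apply (h1 _).2
            have : h * (h⁻¹ * x * h) * h⁻¹ = x := by group
            rw [this]; exact hx
          · change h * (h⁻¹ * x * h) * h⁻¹ = x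
            group
      · ext x
        constructor
        · rintro ⟨y, hy, rfl⟩
          exact (h2 y).1 hy
        · intro hx
          refine ⟨h⁻¹ * x * h, ?_, ?_⟩
          · apply (h2 _).2
            have : h * (h⁻¹ * x * h) * h⁻¹ = x := by group
            rw [this]; exact hx
          · change h * (h⁻¹ * x * h) * h⁻¹ = x
            group
    intro x
    constructor
    · intro hx
      rw [← key]
      exact ⟨x, hx, rfl⟩
    · intro hx
      rw [← key] at hx
      obtain ⟨y, hy, hyx⟩ := hx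
      have : h * y * h⁻¹ = h * x * h⁻¹ := hyx
      have e : y = x := by simpa using this
      rw [← e]; exact hy

theorem OPE : OPE_stmt := by
  intro G _ _ p hp H
  classical
  let S : Set (Subgroup G) := {Q | Q ≤ H ∧ IsPGroup p Q ∧ H ≤ Subgroup.normalizer (Q : Set G)}
  have hS : S.Finite := Set.toFinite S
  have hne : S.Nonempty := by
    refine ⟨⊥, bot_le, IsPGroup.of_bot, ?_⟩
    intro h _
    rw [Subgroup.mem_normalizer_iff]
    intro x
    simp
  obtain ⟨P, hP⟩ := hS.exists_maximal hne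
  refine ⟨P, hP.1, ?_⟩
  intro Q hQ
  have h := OPE_sup p hp H P Q hP.1 hQ
  have := hP.2 (y := P ⊔ Q) h le_sup_left
  exact le_sup_right.trans this

end Pool.Agent.DD
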