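import Pool.Agent.helper12.DD.Spec

set_option autoImplicit false

open Pool.Agent.helper49.Blk

namespace Pool.Agent.DD

lemma PRD_W_sum (hFIN : FIN_stmt) {G : Type} [Group G] [Finite G] (p : ℕ) (H P : Subgroup G)
    {κ : Type} (s : Finset κ) (f : κ → List (Subgroup G) → ℚ) :
    W p H P (fun C => ∑ i ∈ s, f i C) = ∑ i ∈ s, W p H P (f i) := by
  unfold W
  have hf := (hFIN G p).2 H P
  rw [finsum_mem_eq_finite_toFinset_sum _ hf]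
  simp_rw [finsum_mem_eq_finite_toFinset_sum _ hf]
  rw [Finset.sum_comm]
  refine Finset.sum_congr rfl fun C _ => ?_
  rw [Finset.mul_sum]

theorem PRD (hOPE : OPE_stmt) (hOPP : OPP_stmt) (hNPR : NPR_stmt) (hALW : ALW_stmt)
    (hRTP : RTP_stmt) (hKPC : KPC_stmt) (hPID : PID_stmt) (hFIN : FIN_stmt) : PRD_stmt := by
  intro p hp M A B EA EB _ _ _ _ _ _ ιA ιB hA hB χ₁ h₁ χ₂ h₂ d U₁ U₂
  obtain ⟨P₁, hP₁⟩ := hOPE A p hp ⊤
  obtain ⟨P₂, hP₂⟩ := hOPE B p hp ⊤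
  have hP : IsOp p (⊤ : Subgroup (A × B)) (P₁.prod P₂) := by
    rw [← Subgroup.top_prod_top]
    exact (hOPP A B p hp ⊤ ⊤ _).2 ⟨P₁, P₂, rfl, hP₁, hP₂⟩
  have hq1 : p1 (P₁.prod P₂) = P₁ := (hNPR A B P₁ P₂).2.1
  have hq2 : p2 (P₁.prod P₂) = P₂ := (hNPR A B P₁ P₂).2.2.1
  let F₁ : ℕ → List (Subgroup A) → ℚ :=
    fun i C => (kC p M ιA χ₁ C i U₁ : ℚ) * Nat.card (NC C) / Nat.card A
  let F₂ : ℕ → List (Subgroup B) → ℚ :=
    fun i C => (kC p M ιB χ₂ C i U₂ : ℚ) * Nat.card (NC C) / Nat.card B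
  let F : List (Subgroup (A × B)) → ℚ :=
    fun C => (kC p M (ιA.prodMap ιB) (ot χ₁ χ₂) C d (U₁.prod U₂) : ℚ) * Nat.card (NC C) /
      Nat.card (A × B)
  have e1 : ∀ i, altQ p M ιA χ₁ i U₁ = W p ⊤ P₁ (fun C => F₁ i (P₁ :: C)) :=
    fun i => hALW A p P₁ hP₁ (F₁ i)
  have e2 : ∀ i, altQ p M ιB χ₂ i U₂ = W p ⊤ P₂ (fun C => F₂ i (P₂ :: C)) :=
    fun i => hALW B p P₂ hP₂ (F₂ i)
  have e0 : altQ p M (ιA.prodMap ιB) (ot χ₁ χ₂) d (U₁.prod U₂) =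
      W p ⊤ (P₁.prod P₂) (fun C => F (P₁.prod P₂ :: C)) := hALW (A × B) p _ hP F
  have key : W p (⊤ : Subgroup (A × B)) (P₁.prod P₂) (fun C => F (P₁.prod P₂ :: C)) =
      W p ((⊤ : Subgroup A).prod (⊤ : Subgroup B)) (P₁.prod P₂)
        (fun C => ∑ ij ∈ Finset.HasAntidiagonal.antidiagonal d,
          (fun l => F₁ ij.1 (P₁ :: l)) (dd P₁ (C.map p1)) *
            (fun l => F₂ ij.2 (P₂ :: l)) (dd P₂ (C.map p2))) := by
    rw [Subgroup.top_prod_top]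
    unfold W
    refine finsum_mem_congr rfl fun C hC => ?_
    have hC' : RT p ((⊤ : Subgroup A).prod (⊤ : Subgroup B)) (P₁.prod P₂) C := by
      rw [Subgroup.top_prod_top]
      exact hC
    have hmem : ∀ Q ∈ P₁.prod P₂ :: C, Q = (p1 Q).prod (p2 Q) := by
      intro Q hQ
      rcases List.mem_cons.1 hQ with h | h
      · rw [h, hq1, hq2]
      · exact hRTP A B p hp ⊤ P₁ ⊤ P₂ hP₁ hP₂ C hC' Q h
    obtain ⟨k1, k2⟩ := hKPC p hp M A B EA EB ιA ιB hA hB χ₁ h₁ χ₂ h₂ (P₁.prod P₂) C hmem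
    have k1' := k1 d U₁ U₂
    rw [hq1, hq2] at k1' k2
    congr 1
    change (kC p M (ιA.prodMap ιB) (ot χ₁ χ₂) (P₁.prod P₂ :: C) d (U₁.prod U₂) : ℚ) *
      (Nat.card (NC (P₁.prod P₂ :: C)) : ℚ) / (Nat.card (A × B) : ℚ) = _
    rw [k1', k2, Nat.card_prod]
    push_cast
    rw [Finset.sum_mul, Finset.sum_div]
    refine Finset.sum_congr rfl fun ij _ => ?_
    change _ = ((kC p M ιA χ₁ (P₁ :: dd P₁ (C.map p1)) ij.1 U₁ : ℚ) *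
      (Nat.card (NC (P₁ :: dd P₁ (C.map p1))) : ℚ) / (Nat.card A : ℚ)) *
      ((kC p M ιB χ₂ (P₂ :: dd P₂ (C.map p2)) ij.2 U₂ : ℚ) *
      (Nat.card (NC (P₂ :: dd P₂ (C.map p2))) : ℚ) / (Nat.card B : ℚ))
    have cA : (Nat.card A : ℚ) ≠ 0 := by exact_mod_cast Nat.card_pos.ne'
    have cB : (Nat.card B : ℚ) ≠ 0 := by exact_mod_cast Nat.card_pos.ne'
    field_simp
  rw [e0, key, PRD_W_sum hFIN]
  refine Finset.sum_congr rfl fun ij _ => ?_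
  rw [e1, e2, ← hPID A B p hp ⊤ P₁ ⊤ P₂ hP₁ hP₂]

end Pool.Agent.DD
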