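import Pool.Agent.helper12.DD.Spec

set_option autoImplicit false

open Pool.Agent.helper49.Blk

namespace Pool.Agent.DD

theorem RTP (hNPR : NPR_stmt) (hOPX : OPX_stmt) : RTP_stmt := by
  intro A B _ _ _ _ p hp H₁ P₁ H₂ P₂ hP₁ hP₂ C
  induction C generalizing H₁ P₁ H₂ P₂ with
  | nil => intro _ Q hQ; simp at hQ
  | cons R C ih =>
    intro hC Q hQ
    obtain ⟨h1, h2, h3⟩ := hC
    obtain ⟨Q₁, Q₂, hR, -, -, -, hQ₁, hQ₂⟩ :=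
      (hOPX A B p hp H₁ P₁ H₂ P₂ hP₁ hP₂ R).1 ⟨h1, h2⟩
    have hN := hNPR A B Q₁ Q₂
    rcases List.mem_cons.1 hQ with h | h
    · rw [h, hR, hN.2.1, hN.2.2.1]
    · refine ih _ _ _ _ hQ₁ hQ₂ ?_ Q h
      rw [← hN.2.2.2, ← hN.1, ← hR]
      exact h3

end Pool.Agent.DD
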