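import Pool.Agent.helper12.DD.NPR
import Pool.Agent.helper12.DD.OPE
import Pool.Agent.helper12.DD.PRD
import Pool.Agent.helper12.DD.RTP
import Pool.Agent.helper13.DD.IRF
import Pool.Agent.helper13.DD.NCP
import Pool.Agent.helper13.DD.TRI
import Pool.Agent.helper19.DD.KPC
import Pool.Agent.helper27.DD.CJC
import Pool.Agent.helper29.DD.IRG
import Pool.Agent.helper29.DD.RAD
import Pool.Agent.helper31.DD.POS
import Pool.Agent.helper38.DD.TRG
import Pool.Agent.helper43.DD.CJR
import Pool.Agent.helper46.DD.REC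
import Pool.Agent.helper5.DD.DVD
import Pool.Agent.helper5.DD.INC
import Pool.Agent.helper5.DD.INN
import Pool.Agent.helper5.DD.INT
import Pool.Agent.helper5.DD.NRM
import Pool.Agent.helper50.DD.CPL
import Pool.Agent.helper50.DD.KKP
import Pool.Agent.helper51.DD.OPP
import Pool.Agent.helper51.DD.PID
import Pool.Agent.helper55.DD.IRP
import Pool.Agent.helper6.DD.FIN
import Pool.Agent.helper60.DD.IND
import Pool.Agent.helper60.DD.PO2
import Pool.Agent.helper60.DD.STB
import Pool.Agent.helper63.DD.OMP
import Pool.Agent.helper66.DD.DDM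
import Pool.Agent.helper71.DD.OPX
import Pool.Agent.helper72.DD.DFP
import Pool.Agent.helper77.DD.TRE
import Pool.Agent.helper9.DD.PO1
import Pool.Agent.helper92.DD.ALT
import Pool.Agent.helper92.DD.ALW
import Pool.Agent.helper92.DD.DFA
import Pool.Agent.helper97.DD.CJK

/-!
# Project dd: assembly of the modules
-/

set_option autoImplicit false

open Pool.Agent.helper49.Blk

namespace Pool.Agent.DD

theorem all_OPP : OPP_stmt := OPP OPE NPR
theorem all_OPX : OPX_stmt := OPX NPR all_OPP
theorem all_REC : REC_stmt := REC FIN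
theorem all_PID : PID_stmt := PID all_REC all_OPX NPR
theorem all_ALW : ALW_stmt := ALW RAD
theorem all_NCP : NCP_stmt := NCP NPR
theorem all_RTP : RTP_stmt := RTP NPR all_OPX
theorem all_IRG : IRG_stmt := IRG CPL NRM
theorem all_IRP : IRP_stmt := IRP all_IRG TRI IRF
theorem all_INN : INN_stmt := INN INT IRF
theorem all_DVD : DVD_stmt := DVD INC all_INN IRF
theorem all_IND : IND_stmt := IND OMP all_INN IRF
theorem all_DFP : DFP_stmt := DFP all_DVD IRF
theorem all_KKP : KKP_stmt := KKP all_IRP all_IND STB all_DFP IRF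
theorem all_KPC : KPC_stmt := KPC all_KKP all_NCP DDM
theorem all_PRD : PRD_stmt := PRD OPE all_OPP NPR all_ALW all_RTP all_KPC all_PID FIN
theorem all_CJK : CJK_stmt := CJK TRI
theorem all_TRG : TRG_stmt := TRG CJC CJR FIN
theorem all_TRE : TRE_stmt := TRE FIN CJR
theorem all_ALT : ALT_stmt := ALT all_TRG all_CJK
theorem all_POS : POS_stmt := POS all_IRG all_IND all_DVD IRF
theorem all_DFA : DFA_stmt := DFA all_IRG all_IND all_DFP

end Pool.Agent.DD
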