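import Pool.Agent.helper12.DD.All

/-!
# Products of cases of Dade's invariant conjecture
-/

set_option autoImplicit false

open Pool.Agent.helper49.Blk

namespace Pool.Agent.DD

variable {p : ℕ} {M : Ideal (integralClosure ℤ ℂ)}

/-- The product of two cases: the groups `G₁ × G₂`, `E₁ × E₂`, the block of `χ₁ ⊗ χ₂` and the
subgroup `U₁ × U₂`. -/
def Case.prod [hp : Fact p.Prime] (X Y : Case p M) : Case p M where
  G := X.G × Y.G
  E := X.E × Y.E
  ι := X.ι.prodMap Y.ι
  inj := Prod.map_injective.2 ⟨X.inj, Y.inj⟩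
  nor := by
    constructor
    rintro _ ⟨x, rfl⟩ g
    obtain ⟨y, hy⟩ := X.nor.conj_mem _ ⟨x.1, rfl⟩ g.1
    obtain ⟨z, hz⟩ := Y.nor.conj_mem _ ⟨x.2, rfl⟩ g.2
    exact ⟨(y, z), Prod.ext hy hz⟩
  op := by
    rw [← Subgroup.top_prod_top, ← Subgroup.bot_prod_bot]
    exact (all_OPP X.G Y.G p hp.out ⊤ ⊤ _).2 ⟨⊥, ⊥, rfl, X.op, Y.op⟩
  χ := ot X.χ Y.χ
  irr := (all_IRG X.G Y.G _).2 ⟨X.χ, X.irr, Y.χ, Y.irr, rfl⟩
  pos := all_POS p hp.out M X.G Y.G X.χ X.irr Y.χ Y.irr X.pos
  U := X.U.prod Y.U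

/-- The product of `n + 1` copies of `X`. -/
def Case.pw [Fact p.Prime] (X : Case p M) : ℕ → Case p M
  | 0 => X
  | n + 1 => (X.pw n).prod X

/-- Exactly one of the alternating sums of `X` is not zero, and it is `1` or `-1`. -/
def Case.Single (X : Case p M) : Prop :=
  ∃ a : ℕ, (X.alt a = 1 ∨ X.alt a = -1) ∧ ∀ d, d ≠ a → X.alt d = 0

theorem Case.alt_eq (X : Case p M) (d : ℕ) : (X.alt d : ℚ) = altQ p M X.ι X.χ d X.U := by
  classical
  unfold Case.alt
  rw [dif_pos (all_TRE X.G p)]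
  exact all_ALT X.G X.E X.ι X.inj X.nor p M X.χ _ (all_TRE X.G p).choose_spec d X.U

theorem Case.alt_indep (X : Case p M) (T : Finset (List (Subgroup X.G))) (hT : Trans p T)
    (d : ℕ) : altT p M X.ι X.χ T d X.U = X.alt d := by
  have h := all_ALT X.G X.E X.ι X.inj X.nor p M X.χ T hT d X.U
  rw [← X.alt_eq d] at h
  exact_mod_cast h

theorem Case.alt_prod [hp : Fact p.Prime] (X Y : Case p M) (d : ℕ) :
    (X.prod Y).alt d =
      ∑ ij ∈ Finset.HasAntidiagonal.antidiagonal d, X.alt ij.1 * Y.alt ij.2 := by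
  have h := (X.prod Y).alt_eq d
  have h2 := all_PRD p hp.out M X.G Y.G X.E Y.E X.ι Y.ι X.inj Y.inj X.χ X.irr Y.χ Y.irr d X.U Y.U
  have h3 : ((X.prod Y).alt d : ℚ) =
      ((∑ ij ∈ Finset.HasAntidiagonal.antidiagonal d, X.alt ij.1 * Y.alt ij.2 : ℤ) : ℚ) := by
    push_cast
    simp_rw [Case.alt_eq X, Case.alt_eq Y]
    rw [h]
    exact h2
  exact_mod_cast h3

theorem Case.defect_prod [hp : Fact p.Prime] (X Y : Case p M) :
    (X.prod Y).defect = X.defect + Y.defect :=
  (all_DFA p hp.out M X.G Y.G X.χ X.irr Y.χ Y.irr).1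

theorem Case.defect_pos [hp : Fact p.Prime] (X : Case p M) : 0 < X.defect :=
  (all_DFA p hp.out M X.G X.G X.χ X.irr X.χ X.irr).2 X.pos

theorem Case.defect_pw [Fact p.Prime] (X : Case p M) (n : ℕ) :
    (X.pw n).defect = (n + 1) * X.defect := by
  induction n with
  | zero => simp [Case.pw]
  | succ n ih =>
    rw [Case.pw, Case.defect_prod, ih]
    ring

/-- The bound for `d`. -/
noncomputable def Case.vp (X : Case p M) : ℕ := padicValNat p (Nat.card X.G)

theorem Case.alt_zero_of_gt [hp : Fact p.Prime] (X : Case p M) (d : ℕ) (hd : X.vp < d) :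
    X.alt d = 0 := by
  have h : (X.alt d : ℚ) = 0 := by
    rw [X.alt_eq d]
    unfold altQ
    apply finsum_mem_eq_zero_of_forall_eq_zero
    intro C _
    have hk : kC p M X.ι X.χ C d X.U = 0 := by
      unfold kC
      have : kset p M X.ι X.χ (NC C) {P | P ∈ C} d X.U = ∅ := by
        apply Set.eq_empty_of_forall_notMem
        rintro ψ ⟨-, ⟨m, -, hm⟩, -, -⟩
        have h1 : padicValNat p (Nat.card (NC C)) ≤ padicValNat p (Nat.card X.G) := by
          have hdvd : Nat.card (NC C) ∣ Nat.card X.G := Subgroup.card_subgroup_dvd_card _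
          exact (padicValNat_dvd_iff_le Nat.card_pos.ne').1
            (dvd_trans pow_padicValNat_dvd hdvd)
        unfold Case.vp at hd
        omega
      rw [this, Set.ncard_empty]
    rw [hk]
    simp
  exact_mod_cast h

/-- The generating polynomial of the alternating sums. -/
noncomputable def Case.poly (X : Case p M) : Polynomial ℤ :=
  ∑ d ∈ Finset.range (X.vp + 1), Polynomial.monomial d (X.alt d)

theorem Case.poly_coeff [Fact p.Prime] (X : Case p M) (d : ℕ) : X.poly.coeff d = X.alt d := by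
  unfold Case.poly
  rw [Polynomial.finsetSum_coeff]
  simp only [Polynomial.coeff_monomial]
  rw [Finset.sum_ite_eq']
  split_ifs with h
  · rfl
  · rw [Finset.mem_range, not_lt] at h
    exact (X.alt_zero_of_gt d (by omega)).symm

theorem Case.poly_natDegree [Fact p.Prime] (X : Case p M) : X.poly.natDegree ≤ X.vp := by
  rw [Polynomial.natDegree_le_iff_coeff_eq_zero]
  intro N hN
  rw [X.poly_coeff]
  exact X.alt_zero_of_gt N hN

theorem Case.poly_prod [Fact p.Prime] (X Y : Case p M) :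
    (X.prod Y).poly = X.poly * Y.poly := by
  ext d
  rw [Case.poly_coeff, Case.alt_prod, Polynomial.coeff_mul]
  refine Finset.sum_congr rfl fun ij _ => ?_
  rw [Case.poly_coeff, Case.poly_coeff]

theorem Case.poly_pw [Fact p.Prime] (X : Case p M) (n : ℕ) : (X.pw n).poly = X.poly ^ (n + 1) := by
  induction n with
  | zero => simp [Case.pw]
  | succ n ih => rw [Case.pw, Case.poly_prod, ih]; ring

theorem Case.poly_eq_zero [Fact p.Prime] (X : Case p M) : X.poly = 0 ↔ ∀ d, X.alt d = 0 := by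
  constructor
  · intro h d
    rw [← X.poly_coeff, h, Polynomial.coeff_zero]
  · intro h
    ext d
    rw [X.poly_coeff, h d, Polynomial.coeff_zero]

theorem Case.single_of_poly [Fact p.Prime] (X : Case p M) (a : ℕ)
    (h : X.poly = Polynomial.X ^ a ∨ X.poly = -Polynomial.X ^ a) : X.Single := by
  refine ⟨a, ?_, ?_⟩
  · rcases h with h | h
    · left; rw [← X.poly_coeff, h]; simp
    · right; rw [← X.poly_coeff, h]; simp
  · intro d hd
    rcases h with h | h
    · rw [← X.poly_coeff, h]; simp [Polynomial.coeff_X_pow, hd]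
    · rw [← X.poly_coeff, h]; simp [Polynomial.coeff_X_pow, hd]

end Pool.Agent.DD
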