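import Mathlib
import Pool.Agent.helper49.BlockDefs

/-!
# Dade's invariant conjecture (MP_baa4d7_al): definitions

`Irr`, `omega`, `SameBlock` are in `Pool/Agent/helper49/BlockDefs.lean`: `Irr G` is the set of the
complex irreducible characters of `G`, `omega χ g = |K| χ(g) / χ(1)` (`K` the class of `g`) the value
of the central character, and for a maximal ideal `M` of the ring of algebraic integers with `p ∈ M`
two irreducible characters are in the same `p`-block (`SameBlock`) if their central characters are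
congruent modulo `M`.
-/

set_option autoImplicit false

open Pool.Agent.helper49.Blk

namespace Pool.Agent.DD

section group

variable {G : Type} [Group G]

/-- `P = O_p(H)`, the largest normal `p`-subgroup of `H`. -/
def IsOp (p : ℕ) (H P : Subgroup G) : Prop :=
  IsGreatest {Q : Subgroup G | Q ≤ H ∧ IsPGroup p Q ∧ H ≤ Subgroup.normalizer Q} P

/-- `N_G(C)`, the normaliser of a chain of subgroups. -/
def NC (C : List (Subgroup G)) : Subgroup G := ⨅ P ∈ C, Subgroup.normalizer P

/-- `C = [P_0, ..., P_n]` is a radical `p`-chain of `G`: `P_0 < ... < P_n`, `P_0 = O_p(G)`,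
`P_k = O_p(N_G(C_k))` for `k = 1, ..., n`, where `C_k = [P_0, ..., P_k]`. -/
structure Radical (p : ℕ) (C : List (Subgroup G)) : Prop where
  ne : C ≠ []
  strict : C.Pairwise (· < ·)
  zero : ∀ P, C.head? = some P → IsOp p ⊤ P
  succ : ∀ k, (hk : k + 1 < C.length) → IsOp p (NC (C.take (k + 2))) C[k + 1]

/-- Two chains are conjugate in `G`. -/
def Conj (C C' : List (Subgroup G)) : Prop :=
  ∃ g : G, C' = C.map fun P => P.map (MulAut.conj g).toMonoidHom

/-- `T` contains exactly one chain of each `G`-class of radical `p`-chains of `G`. -/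
structure Trans (p : ℕ) (T : Finset (List (Subgroup G))) : Prop where
  rad : ∀ C ∈ T, Radical p C
  ex : ∀ C, Radical p C → ∃ C' ∈ T, Conj C C'
  uniq : ∀ C ∈ T, ∀ C' ∈ T, Conj C C' → C = C'

/-- `d(ψ) = d`, that is `p ^ d = |H|_p / ψ(1)_p`. -/
def Defc (p : ℕ) {H : Type} [Group H] (ψ : H → ℂ) (d : ℕ) : Prop :=
  ∃ m : ℕ, ψ 1 = m ∧ padicValNat p m + d = padicValNat p (Nat.card H)

/-- The value of the central character of `ψ ∈ Irr(N)`, `N ≤ G`, at the sum of the elements of
`K ∩ N`, where `K` is the `G`-class of `g`. -/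
noncomputable def omInd (N : Subgroup G) (ψ : N → ℂ) (g : G) : ℂ :=
  (∑ᶠ x ∈ {x : N | IsConj g (x : G)}, ψ x) / ψ 1

/-- `b(ψ)^G` is the block of `χ ∈ Irr(G)`: for all `g ∈ G` the values of the central characters of
`ψ` at the sum of `K ∩ N` and of `χ` at the sum of `K` are congruent modulo `M`. -/
def Induces (M : Ideal (integralClosure ℤ ℂ)) (N : Subgroup G) (χ : G → ℂ) (ψ : N → ℂ) : Prop :=
  ∀ g : G, ∃ a ∈ M, omInd N ψ g - omega χ g = ((a : integralClosure ℤ ℂ) : ℂ)

variable {E : Type} [Group E]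

/-- The element `e` of `E` normalises all members of the set `S` of subgroups of `G` and fixes the
function `ψ` on `N`; `ι` is the embedding of `G` in `E`. -/
def Fixes (ι : G →* E) (S : Set (Subgroup G)) (N : Subgroup G) (ψ : N → ℂ) (e : E) : Prop :=
  (∀ P ∈ S, ∀ x y : G, ι y = e * ι x * e⁻¹ → (x ∈ P ↔ y ∈ P)) ∧
  ∀ x y : N, ι y = e * ι x * e⁻¹ → ψ y = ψ x

/-- The subgroup `U` of `E` is the product of `ι(G)` and of the stabiliser of `(S, ψ)` in `E`. -/
def StabIs (ι : G →* E) (S : Set (Subgroup G)) (N : Subgroup G) (ψ : N → ℂ) (U : Subgroup E) :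
    Prop :=
  ∀ e : E, e ∈ U ↔ ∃ g : G, Fixes ι S N ψ (e * ι g)

/-- The characters counted by `k_C(B, d, U)`, for the normaliser `N` and the set `S` of the members
of the chain. -/
def kset (p : ℕ) (M : Ideal (integralClosure ℤ ℂ)) (ι : G →* E) (χ : G → ℂ) (N : Subgroup G)
    (S : Set (Subgroup G)) (d : ℕ) (U : Subgroup E) : Set (N → ℂ) :=
  {ψ | ψ ∈ Irr N ∧ Defc p ψ d ∧ Induces M N χ ψ ∧ StabIs ι S N ψ U}

/-- `k_C(B, d, U)` where `B` is the block of `χ`. -/
noncomputable def kC (p : ℕ) (M : Ideal (integralClosure ℤ ℂ)) (ι : G →* E) (χ : G → ℂ)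
    (C : List (Subgroup G)) (d : ℕ) (U : Subgroup E) : ℕ :=
  (kset p M ι χ (NC C) {P | P ∈ C} d U).ncard

/-- The alternating sum over the set `T` of chains. -/
noncomputable def altT (p : ℕ) (M : Ideal (integralClosure ℤ ℂ)) (ι : G →* E) (χ : G → ℂ)
    (T : Finset (List (Subgroup G))) (d : ℕ) (U : Subgroup E) : ℤ :=
  ∑ C ∈ T, (-1) ^ (C.length - 1) * (kC p M ι χ C d U : ℤ)

end group

/-- A case of Dade's invariant conjecture: a finite group `G` with `O_p(G) = 1`, an exact sequence
`1 → G → E → E/G → 1`, the block `B` of `χ ∈ Irr(G)`, of positive defect, and a subgroup `U` of `E`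
(subgroups of `E/G` correspond to subgroups of `E` that contain `G`; for other `U` all numbers
`k_C(B, d, U)` are `0`). -/
structure Case (p : ℕ) (M : Ideal (integralClosure ℤ ℂ)) : Type 1 where
  G : Type
  [grp : Group G]
  [fin : Finite G]
  E : Type
  [grpE : Group E]
  ι : G →* E
  inj : Function.Injective ι
  nor : ι.range.Normal
  op : IsOp p (⊤ : Subgroup G) ⊥
  χ : G → ℂ
  irr : χ ∈ Irr G
  pos : HasPositiveDefect p {ψ | ψ ∈ Irr G ∧ SameBlock M χ ψ}
  U : Subgroup E

attribute [instance] Case.grp Case.fin Case.grpE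

variable {p : ℕ} {M : Ideal (integralClosure ℤ ℂ)}

/-- The alternating sum of Dade's conjecture, for some set of representatives of the classes of
radical `p`-chains. -/
noncomputable def Case.alt (X : Case p M) (d : ℕ) : ℤ :=
  open Classical in
  if h : ∃ T : Finset (List (Subgroup X.G)), Trans p T then altT p M X.ι X.χ h.choose d X.U else 0

/-- The defect of the block: the largest `d(ψ)` for `ψ` in the block. -/
noncomputable def Case.defect (X : Case p M) : ℕ :=
  sSup {d | ∃ ψ ∈ Irr X.G, SameBlock M X.χ ψ ∧ Defc p ψ d}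

/-- Dade's invariant conjecture for the prime `p` -/
def Dade (p : ℕ) (M : Ideal (integralClosure ℤ ℂ)) : Prop :=
  ∀ (X : Case p M) (T : Finset (List (Subgroup X.G))), Trans p T → ∀ d : ℕ,
    altT p M X.ι X.χ T d X.U = 0

end Pool.Agent.DD
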