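import Pool.Agent.helper12.DD.Cases

/-!
# The zero-one law for Dade's invariant conjecture
-/

set_option autoImplicit false

open Pool.Agent.helper49.Blk

namespace Pool.Agent.DD

variable {p : ℕ} {M : Ideal (integralClosure ℤ ℂ)}

theorem main_amplify [Fact p.Prime] (X : Case p M) (h0 : ∃ d, X.alt d ≠ 0) (hS : ¬ X.Single)
    (m : ℕ) (hm : 1 ≤ m) :
    ∃ d, (2 : ℤ) ^ (m - 1) ≤ (2 * m * X.vp + 1) * (X.pw (2 * m - 1)).alt d := by
  have hP0 : X.poly ≠ 0 := by
    intro h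
    obtain ⟨d, hd⟩ := h0
    exact hd (X.poly_eq_zero.1 h d)
  have hP1 : ∀ a : ℕ, X.poly ≠ Polynomial.X ^ a ∧ X.poly ≠ -Polynomial.X ^ a := by
    intro a
    exact ⟨fun h => hS (X.single_of_poly a (Or.inl h)), fun h => hS (X.single_of_poly a (Or.inr h))⟩
  obtain ⟨d, hd⟩ := PO1 X.poly hP0 hP1 m hm
  refine ⟨d, ?_⟩
  have e : X.poly ^ (2 * m) = (X.pw (2 * m - 1)).poly := by
    rw [X.poly_pw]
    congr 1
    omega
  rw [e, Case.poly_coeff] at hd
  have hpos : (0 : ℤ) < (X.pw (2 * m - 1)).alt d := by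
    by_contra hcon
    have h1 : (0 : ℤ) < 2 ^ (m - 1) := by positivity
    have h2 : (0 : ℤ) < 2 * m * X.poly.natDegree + 1 := by positivity
    nlinarith
  refine hd.trans ?_
  apply mul_le_mul_of_nonneg_right _ hpos.le
  have := X.poly_natDegree
  have h2 : (X.poly.natDegree : ℤ) ≤ X.vp := by exact_mod_cast this
  have h3 : (0 : ℤ) ≤ 2 * m := by positivity
  nlinarith

theorem main_growth [Fact p.Prime] (X : Case p M) (h0 : ∃ d, X.alt d ≠ 0) (hS : ¬ X.Single) :
    ∃ c : ℝ, 0 < c ∧ ∀ N : ℕ, ∃ (Y : Case p M) (d : ℕ), N ≤ Y.defect ∧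
      Real.exp (c * Y.defect) ≤ Y.alt d := by
  obtain ⟨c, hc, h⟩ := PO2 X.defect X.vp X.defect_pos
  refine ⟨c, hc, fun N => ?_⟩
  obtain ⟨m, hm, hN, hexp⟩ := h N
  obtain ⟨d, hd⟩ := main_amplify X h0 hS m hm
  refine ⟨X.pw (2 * m - 1), d, ?_, ?_⟩
  · rw [X.defect_pw]
    have : 2 * m - 1 + 1 = 2 * m := by omega
    rw [this]
    exact hN
  · have e : ((X.pw (2 * m - 1)).defect : ℝ) = 2 * m * X.defect := by
      rw [X.defect_pw]
      have : 2 * m - 1 + 1 = 2 * m := by omega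
      rw [this]
      push_cast
      ring
    rw [e]
    have hd' : (2 : ℝ) ^ (m - 1) ≤ (2 * m * X.vp + 1) * ((X.pw (2 * m - 1)).alt d : ℝ) := by
      exact_mod_cast hd
    have hpos : (0 : ℝ) < 2 * m * X.vp + 1 := by positivity
    have h1 : Real.exp (c * (2 * m * X.defect)) * (2 * m * X.vp + 1) ≤
        (2 * m * X.vp + 1) * ((X.pw (2 * m - 1)).alt d : ℝ) := hexp.trans hd'
    rw [mul_comm] at h1
    exact le_of_mul_le_mul_left h1 hpos

theorem main_dade [Fact p.Prime] : Dade p M ↔ ∀ (X : Case p M) (d : ℕ), X.alt d = 0 := by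
  constructor
  · intro h X d
    obtain ⟨T, hT⟩ := all_TRE X.G p
    rw [← X.alt_indep T hT d]
    exact h X T hT d
  · intro h X T hT d
    rw [X.alt_indep T hT d]
    exact h X d

theorem main_single_sum [Fact p.Prime] (X : Case p M) (hS : X.Single) : ∑ᶠ d, X.alt d ≠ 0 := by
  obtain ⟨a, ha, h⟩ := hS
  rw [finsum_eq_single _ a h]
  rcases ha with h | h <;> rw [h] <;> norm_num

theorem main_law [Fact p.Prime] :
    (∀ X : Case p M, (∀ d, X.alt d = 0) ∨ X.Single) ∨
      ∃ c : ℝ, 0 < c ∧ ∀ N : ℕ, ∃ (X : Case p M) (d : ℕ), N ≤ X.defect ∧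
        Real.exp (c * X.defect) ≤ X.alt d := by
  by_cases h : ∀ X : Case p M, (∀ d, X.alt d = 0) ∨ X.Single
  · exact Or.inl h
  · right
    push Not at h
    obtain ⟨X, h0, hS⟩ := h
    exact main_growth X h0 hS

theorem main_iff [Fact p.Prime] :
    Dade p M ↔ (∀ X : Case p M, ∑ᶠ d, X.alt d = 0) ∧
      ∀ c : ℝ, 0 < c → ∃ N : ℕ, ∀ (X : Case p M) (d : ℕ), N ≤ X.defect →
        (X.alt d : ℝ) < Real.exp (c * X.defect) := by
  rw [main_dade]
  constructor
  · intro h
    refine ⟨fun X => ?_, fun c _ => ⟨0, fun X d _ => ?_⟩⟩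
    · simp [h X]
    · rw [h X d]
      simpa using Real.exp_pos _
  · rintro ⟨h1, h2⟩ X d
    rcases main_law (p := p) (M := M) with h | ⟨c, hc, h⟩
    · rcases h X with h | h
      · exact h d
      · exact absurd (h1 X) (main_single_sum X h)
    · exfalso
      obtain ⟨N, hN⟩ := h2 c hc
      obtain ⟨Y, e, hY, hexp⟩ := h N
      exact absurd (hN Y e hY) (not_lt.2 hexp)

/-- The lowest coefficient of an even power of a nonzero integer polynomial is positive. -/
theorem main_trailing (P : Polynomial ℤ) (hP : P ≠ 0) (m : ℕ) :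
    0 < (P ^ (2 * m)).coeff (P ^ (2 * m)).natTrailingDegree := by
  have h : (P ^ (2 * m)).trailingCoeff = P.trailingCoeff ^ (2 * m) := by
    induction 2 * m with
    | zero => simp [Polynomial.trailingCoeff]
    | succ n ih => rw [pow_succ, pow_succ, Polynomial.trailingCoeff_mul, ih]
  change 0 < (P ^ (2 * m)).trailingCoeff
  rw [h, pow_mul]
  apply pow_pos
  have : P.trailingCoeff ≠ 0 := Polynomial.trailingCoeff_nonzero_iff_nonzero.2 hP
  positivity

theorem main_onesided [Fact p.Prime] :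
    Dade p M ↔ ∃ N : ℕ, ∀ X : Case p M, N ≤ X.defect → ∀ d, X.alt d ≤ 0 := by
  rw [main_dade]
  constructor
  · intro h
    exact ⟨0, fun X _ d => (h X d).le⟩
  · rintro ⟨N, hN⟩
    by_contra hcon
    push Not at hcon
    obtain ⟨X, d, hd⟩ := hcon
    have hP : X.poly ≠ 0 := fun h => hd (X.poly_eq_zero.1 h d)
    have h1 := main_trailing X.poly hP (N + 1)
    have e : X.poly ^ (2 * (N + 1)) = (X.pw (2 * (N + 1) - 1)).poly := by
      rw [X.poly_pw]
      congr 1
    rw [e, Case.poly_coeff] at h1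
    refine absurd (hN (X.pw (2 * (N + 1) - 1)) ?_ _) (not_le.2 h1)
    rw [X.defect_pw]
    have h2 := X.defect_pos
    have h3 : 2 * (N + 1) - 1 + 1 = 2 * (N + 1) := by omega
    rw [h3]
    nlinarith

end Pool.Agent.DD
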