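import Pool.Agent.helper12.DD.Spec

set_option autoImplicit false

open Pool.Agent.helper49.Blk

namespace Pool.Agent.DD

theorem NPR : NPR_stmt := by
  intro A B _ _ P Q
  refine ⟨?_, ?_, ?_, ?_⟩
  · ext x
    simp only [Subgroup.mem_prod, Subgroup.mem_normalizer_iff, SetLike.mem_coe]
    constructor
    · intro h
      constructor
      · intro a
        have := h (a, 1)
        simpa [Prod.fst_mul, Prod.snd_mul] using this
      · intro b
        have := h (1, b)
        simpa [Prod.fst_mul, Prod.snd_mul] using this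
    · rintro ⟨h1, h2⟩ y
      rw [h1 y.1, h2 y.2]
      rfl
  · ext a
    constructor
    · rintro ⟨x, hx, rfl⟩
      exact hx.1
    · intro ha
      exact ⟨(a, 1), ⟨ha, one_mem _⟩, rfl⟩
  · ext b
    constructor
    · rintro ⟨x, hx, rfl⟩
      exact hx.2
    · intro hb
      exact ⟨(1, b), ⟨one_mem _, hb⟩, rfl⟩
  · intro H₁ K₁ H₂ K₂
    ext x
    simp only [Subgroup.mem_inf, Subgroup.mem_prod]
    tauto

end Pool.Agent.DD
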