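import Pool.Agent.helper12.DD.Defs
import Pool.Agent.helper49.Blocks2

/-!
# Project dd: (MP_baa4d7_al, Dade's invariant conjecture, x10)

TARGET. For a case `X = (G, E, B, U)` of Dade's invariant conjecture let
`P_X(t) = ∑_d (∑_{C ∈ R/G} (-1)^|C| k_C(B, d, U)) t^d`. Then `P_{X × Y} = P_X P_Y` (groups `G₁ × G₂`,
`E₁ × E₂`, block `B₁ ⊗ B₂`, subgroup `U₁ × U₂`), and by powers `X^m`: Dade's conjecture for `p` holds
iff the alternating sums are `≤ 0` for all blocks of large defect; and either all alternating sums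
are `0` or one single `±1`, or they grow exponentially in the defect of the block.

RULES FOR MODULES. File `Pool/Agent/<seat>/DD/XX.lean` with

  import Pool.Agent.helper12.DD.Spec
  set_option autoImplicit false
  open Pool.Agent.helper49.Blk
  namespace Pool.Agent.DD
  theorem XX (h1 : YY_stmt) ... : XX_stmt := ...
  end Pool.Agent.DD

auxiliary lemmas prefixed `XX_`, no sorry, no double quotes in the file. Any other statement of this
file may be taken as a hypothesis (no circles), also if it is not listed under `uses`.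
`Pool/Agent/helper49/Blocks2.lean` (imported) has `orth` (orthogonality), `linInd_Irr` (distinct
irreducible characters are linearly independent), `sum_class`, `char_conj'`; Mathlib has
`Representation.char_tensor`, `Representation.card_inv_mul_sum_char_mul_char_eq_finrank`,
`IsIrreducible.algebraMap_intertwiningMap_bijective_of_isAlgClosed` (Schur), ...
`Subgroup.normalizer` takes a `Set G` in this Mathlib.
-/

set_option autoImplicit false

open Pool.Agent.helper49.Blk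

namespace Pool.Agent.DD

/-- First projection of a subgroup of `A × B`. -/
abbrev p1 {A B : Type} [Group A] [Group B] (Q : Subgroup (A × B)) : Subgroup A :=
  Q.map (MonoidHom.fst A B)

/-- Second projection of a subgroup of `A × B`. -/
abbrev p2 {A B : Type} [Group A] [Group B] (Q : Subgroup (A × B)) : Subgroup B :=
  Q.map (MonoidHom.snd A B)

/-- `C = [Q_1, ..., Q_n]` continues, below `(H, P)`, a radical chain which ends with `P` and has
normaliser `H`: `P < Q_1`, `Q_1 = O_p(H ∩ N(Q_1))`, and so on. -/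
def RT {G : Type} [Group G] (p : ℕ) : Subgroup G → Subgroup G → List (Subgroup G) → Prop
  | _, _, [] => True
  | H, P, Q :: C => P < Q ∧ IsOp p (H ⊓ Subgroup.normalizer Q) Q ∧
      RT p (H ⊓ Subgroup.normalizer Q) Q C

/-- The alternating sum of `φ` over all radical continuations of `(H, P)`. -/
noncomputable def W {G : Type} [Group G] (p : ℕ) (H P : Subgroup G)
    (φ : List (Subgroup G) → ℚ) : ℚ :=
  ∑ᶠ C ∈ {C : List (Subgroup G) | RT p H P C}, (-1) ^ C.length * φ C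

/-- Remove from the weakly increasing list `l` the members equal to their predecessor (`a` is the
predecessor of the first member). -/
noncomputable def dd {α : Type} : α → List α → List α
  | _, [] => []
  | a, b :: l => open Classical in if b = a then dd a l else b :: dd b l

/-- The function `f ⊗ g` on `A × B`. -/
def ot {A B : Type} (f : A → ℂ) (g : B → ℂ) : A × B → ℂ := fun x => f x.1 * g x.2

/-- The function `f ⊗ g` on the subgroup `N₁ × N₂` of `A × B`. -/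
def ots {A B : Type} [Group A] [Group B] (N₁ : Subgroup A) (N₂ : Subgroup B) (f : N₁ → ℂ)
    (g : N₂ → ℂ) : ↥(N₁.prod N₂) → ℂ :=
  fun x => f ⟨x.1.1, x.2.1⟩ * g ⟨x.1.2, x.2.2⟩

/-- The alternating sum of Dade's conjecture written as a sum over all radical `p`-chains. -/
noncomputable def altQ {G E : Type} [Group G] [Group E] (p : ℕ) (M : Ideal (integralClosure ℤ ℂ))
    (ι : G →* E) (χ : G → ℂ) (d : ℕ) (U : Subgroup E) : ℚ :=
  ∑ᶠ C ∈ {C : List (Subgroup G) | Radical p C},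
    (-1) ^ (C.length - 1) * ((kC p M ι χ C d U : ℚ) * Nat.card (NC C) / Nat.card G)

/-- The defect of the block of `χ`. -/
noncomputable def df {G : Type} [Group G] (p : ℕ) (M : Ideal (integralClosure ℤ ℂ))
    (χ : G → ℂ) : ℕ :=
  sSup {d | ∃ ψ ∈ Irr G, SameBlock M χ ψ ∧ Defc p ψ d}

/-! ## A. `O_p` and radical chains in products -/

/-- `O_p(H)` exists. Proof: among the (finitely many) normal `p`-subgroups of `H` choose one, `P`, of
largest order; for any other one `Q` the group `PQ` is a normal `p`-subgroup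
(`IsPGroup.to_sup_of_normal_right` in `H`, or directly), so `PQ = P`. -/
def OPE_stmt : Prop :=
  ∀ (G : Type) [Group G] [Finite G] (p : ℕ), p.Prime → ∀ H : Subgroup G, ∃ P, IsOp p H P

/-- `N(P × Q) = N(P) × N(Q)` and `(H₁ × H₂) ∩ (K₁ × K₂) = (H₁ ∩ K₁) × (H₂ ∩ K₂)`,
`p1 (P × Q) = P`, `p2 (P × Q) = Q`. Proof: elements. -/
def NPR_stmt : Prop :=
  ∀ (A B : Type) [Group A] [Group B] (P : Subgroup A) (Q : Subgroup B),
    Subgroup.normalizer ((P.prod Q : Subgroup (A × B)) : Set (A × B)) =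
      (Subgroup.normalizer (P : Set A)).prod (Subgroup.normalizer (Q : Set B)) ∧
    p1 (P.prod Q) = P ∧ p2 (P.prod Q) = Q ∧
    ∀ (H₁ K₁ : Subgroup A) (H₂ K₂ : Subgroup B),
      H₁.prod H₂ ⊓ K₁.prod K₂ = (H₁ ⊓ K₁).prod (H₂ ⊓ K₂)

/-- `O_p(H₁ × H₂) = O_p(H₁) × O_p(H₂)`. Proof: if `P_i = O_p(H_i)` then `P₁ × P₂` is a normal
`p`-subgroup of `H₁ × H₂`; if `Q` is a `p`-subgroup of `H₁ × H₂` normalised by `H₁ × H₂` then `p1 Q`
is a `p`-subgroup of `H₁` normalised by `H₁`, so `p1 Q ≤ P₁`, same for `p2 Q`, so `Q ≤ P₁ × P₂`.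
This gives the second direction; for the first use uniqueness (`IsGreatest.unique`) and
existence of `O_p(H_i)`. Uses: OPE, NPR. -/
def OPP_stmt : Prop :=
  ∀ (A B : Type) [Group A] [Group B] [Finite A] [Finite B] (p : ℕ), p.Prime →
    ∀ (H₁ : Subgroup A) (H₂ : Subgroup B) (R : Subgroup (A × B)),
      IsOp p (H₁.prod H₂) R ↔ ∃ P₁ P₂, R = P₁.prod P₂ ∧ IsOp p H₁ P₁ ∧ IsOp p H₂ P₂

/-- The possible next members of a radical chain in a product. Let `P_i = O_p(H_i)`.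
Proof of `→`: let `H = H₁ × H₂`, `Q_i = p_i Q`, `R = Q₁ × Q₂`, a `p`-group (`Q_i` is an image of the
`p`-group `Q`) with `Q ≤ R ≤ H`. The group `R ∩ N(Q)` is a `p`-subgroup of `H ∩ N(Q)` which is
normalised by `H ∩ N(Q)` (if `(h₁, h₂)` normalises `Q` then `h_i` normalises `Q_i`), so
`R ∩ N(Q) ≤ O_p(H ∩ N(Q)) = Q`. By the normaliser condition in the nilpotent group `R`
(`IsPGroup.isNilpotent`, `normalizerCondition_of_isNilpotent`) `Q = R`. Now
`H ∩ N(Q) = (H₁ ∩ N(Q₁)) × (H₂ ∩ N(Q₂))` by NPR and OPP gives `Q_i = O_p(H_i ∩ N(Q_i))`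
(compare `Q₁ × Q₂ = P₁' × P₂'` using `p1`, `p2`); `P₁ × P₂ < Q₁ × Q₂` means `P_i ≤ Q_i`, not both
equal. `←` is NPR and OPP. Uses: NPR, OPP. -/
def OPX_stmt : Prop :=
  ∀ (A B : Type) [Group A] [Group B] [Finite A] [Finite B] (p : ℕ), p.Prime →
    ∀ (H₁ P₁ : Subgroup A) (H₂ P₂ : Subgroup B), IsOp p H₁ P₁ → IsOp p H₂ P₂ →
    ∀ Q : Subgroup (A × B),
      (P₁.prod P₂ < Q ∧ IsOp p (H₁.prod H₂ ⊓ Subgroup.normalizer Q) Q) ↔
      ∃ Q₁ Q₂, Q = Q₁.prod Q₂ ∧ P₁ ≤ Q₁ ∧ P₂ ≤ Q₂ ∧ (P₁ ≠ Q₁ ∨ P₂ ≠ Q₂) ∧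
        IsOp p (H₁ ⊓ Subgroup.normalizer Q₁) Q₁ ∧ IsOp p (H₂ ⊓ Subgroup.normalizer Q₂) Q₂

/-- Only finitely many radical chains and radical continuations. Proof: they are strictly
increasing lists (for `RT`: induction on the list), so lists without repetition over the finite type
`Subgroup G`; their length is at most the number of subgroups (`List.Nodup.length_le_card`), and
`List.finite_length_le` (or `fintypeNodupList`). -/
def FIN_stmt : Prop :=
  ∀ (G : Type) [Group G] [Finite G] (p : ℕ),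
    {C : List (Subgroup G) | Radical p C}.Finite ∧
    ∀ H P : Subgroup G, {C : List (Subgroup G) | RT p H P C}.Finite

/-- Recursion for `W`: the continuations are `[]` and `Q :: C` with `Q` in the index set and `C` a
continuation of `(H ∩ N(Q), Q)`; the sign changes. Uses: FIN. -/
def REC_stmt : Prop :=
  ∀ (G : Type) [Group G] [Finite G] (p : ℕ) (H P : Subgroup G) (φ : List (Subgroup G) → ℚ),
    W p H P φ = φ [] -
      ∑ᶠ Q ∈ {Q : Subgroup G | P < Q ∧ IsOp p (H ⊓ Subgroup.normalizer Q) Q},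
        W p (H ⊓ Subgroup.normalizer Q) Q (fun C => φ (Q :: C))

/-- THE PRODUCT IDENTITY. Proof: strong induction on
`(card A - card P₁) + (card B - card P₂)`. Put `S_i = {Q | P_i < Q, Q = O_p(H_i ∩ N(Q))}`,
`A_i = ∑_{Q ∈ S_i} W(H_i ∩ N(Q), Q; φ_i(Q :: ·))`, so `W_i = φ_i([]) - A_i` (REC). By REC in `A × B`
and OPX, NPR the left side is `φ₁([]) φ₂([]) - ∑_{(Q₁, Q₂)} W((H₁ ∩ N(Q₁)) × (H₂ ∩ N(Q₂)), Q₁ × Q₂; ..)`
over the pairs `(Q₁, Q₂) ≠ (P₁, P₂)` with `P_i ≤ Q_i = O_p(H_i ∩ N(Q_i))`. They are of three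
kinds. (1) `Q₁ ∈ S₁, Q₂ = P₂`: here `H₂ ∩ N(P₂) = H₂` (because `P₂ = O_p(H₂)` is normal in `H₂`),
and the function is `C ↦ φ₁(Q₁ :: dd Q₁ (C.map p1)) φ₂(dd P₂ (C.map p2))` by the definition of `dd`
(`p1 (Q₁ × Q₂) = Q₁`), so by induction the sum over this kind is `A₁ W₂`; (2) `Q₁ = P₁, Q₂ ∈ S₂`:
`W₁ A₂`; (3) `Q₁ ∈ S₁, Q₂ ∈ S₂`: `A₁ A₂`. Total
`(W₁ + A₁)(W₂ + A₂) - A₁ W₂ - W₁ A₂ - A₁ A₂ = W₁ W₂`. Uses: REC, OPX, NPR. -/
def PID_stmt : Prop :=
  ∀ (A B : Type) [Group A] [Group B] [Finite A] [Finite B] (p : ℕ), p.Prime →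
    ∀ (H₁ P₁ : Subgroup A) (H₂ P₂ : Subgroup B), IsOp p H₁ P₁ → IsOp p H₂ P₂ →
    ∀ (φ₁ : List (Subgroup A) → ℚ) (φ₂ : List (Subgroup B) → ℚ),
      W p (H₁.prod H₂) (P₁.prod P₂)
        (fun C => φ₁ (dd P₁ (C.map p1)) * φ₂ (dd P₂ (C.map p2))) =
      W p H₁ P₁ φ₁ * W p H₂ P₂ φ₂

/-- `Radical` in recursive form. Proof: show by induction on `C` that `RT p H P C` holds iff
`(P :: C).Pairwise (· < ·)` and `IsOp p (H ⊓ NC (C.take (k + 1))) C[k]` for all `k < C.length`; then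
take `H = ⊤` and use that `normalizer P₀ = ⊤` for `P₀ = O_p(G)`. -/
def RAD_stmt : Prop :=
  ∀ (G : Type) [Group G] (p : ℕ) (C : List (Subgroup G)),
    Radical p C ↔ ∃ P₀ C', C = P₀ :: C' ∧ IsOp p ⊤ P₀ ∧ RT p ⊤ P₀ C'

/-- The sum over all radical chains as a `W`. Proof: by RAD and uniqueness of `O_p(G)` the map
`C' ↦ P₀ :: C'` is a bijection from the continuations of `(⊤, P₀)` to the radical chains.
Uses: RAD. -/
def ALW_stmt : Prop :=
  ∀ (G : Type) [Group G] [Finite G] (p : ℕ) (P₀ : Subgroup G), IsOp p ⊤ P₀ →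
    ∀ φ : List (Subgroup G) → ℚ,
      ∑ᶠ C ∈ {C : List (Subgroup G) | Radical p C}, (-1) ^ (C.length - 1) * φ C =
        W p ⊤ P₀ (fun C => φ (P₀ :: C))

/-- `dd` does not change the set of members. Induction on `l` for all `a`. -/
def DDM_stmt : Prop :=
  ∀ (α : Type) (a b : α) (l : List α), b ∈ a :: dd a l ↔ b ∈ a :: l

/-- `N(C)` depends only on the members of `C`, and in a product, for a list of products, it is
the product of the normalisers of the projections. Uses: NPR. -/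
def NCP_stmt : Prop :=
  (∀ (G : Type) [Group G] (C C' : List (Subgroup G)), (∀ P, P ∈ C ↔ P ∈ C') → NC C = NC C') ∧
  ∀ (A B : Type) [Group A] [Group B] (C : List (Subgroup (A × B))),
    (∀ Q ∈ C, Q = (p1 Q).prod (p2 Q)) → NC C = (NC (C.map p1)).prod (NC (C.map p2))

/-- All members of a radical continuation in a product are products. Induction on `C` with OPX and
NPR. Uses: OPX, NPR. -/
def RTP_stmt : Prop :=
  ∀ (A B : Type) [Group A] [Group B] [Finite A] [Finite B] (p : ℕ), p.Prime →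
    ∀ (H₁ P₁ : Subgroup A) (H₂ P₂ : Subgroup B), IsOp p H₁ P₁ → IsOp p H₂ P₂ →
    ∀ C, RT p (H₁.prod H₂) (P₁.prod P₂) C → ∀ Q ∈ C, Q = (p1 Q).prod (p2 Q)

/-! ## B. Characters -/

/-- Completeness: a class function orthogonal to all irreducible characters is `0`. Proof: let
`z = ∑_g f(g) g⁻¹ ∈ ℂ[G]`, central. On an irreducible representation with character `χ` it acts as
a scalar (Schur) of trace `∑_g f(g) χ(g⁻¹) = 0`, so as `0`. So `z` annihilates all simple
`ℂ[G]`-modules (`Representation.isSimpleModule_iff_irreducible_ofModule`; a simple module is a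
quotient of `ℂ[G]`, so finite-dimensional), so `z` lies in all maximal left ideals, and
`z ∈ Ring.jacobson = ⊥` as `ℂ[G]` is semisimple (Maschke). -/
def CPL_stmt : Prop :=
  ∀ (G : Type) [Group G] [Fintype G] (f : G → ℂ), (∀ g h, f (h * g * h⁻¹) = f g) →
    (∀ χ ∈ Irr G, ∑ g, f g * χ g⁻¹ = 0) → f = 0

/-- A representation whose character has norm `1` is irreducible. Proof: by
`Representation.card_inv_mul_sum_char_mul_char_eq_finrank` the space of endomorphisms has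
dimension `1`. `V ≠ 0`. If `U` is a proper nonzero subrepresentation, then by Maschke it has a
complement, and the projection is an endomorphism which is not a scalar. (Compare
`FDRep.simple_iff_char_is_norm_one`.) -/
def NRM_stmt : Prop :=
  ∀ (G : Type) [Group G] [Fintype G] (V : Type) [AddCommGroup V] [Module ℂ V]
    [FiniteDimensional ℂ V] (ρ : Representation ℂ G V),
    ∑ g, ρ.character g * ρ.character g⁻¹ = (Nat.card G : ℂ) → ρ.IsIrreducible

/-- `Irr(A × B) = Irr(A) ⊗ Irr(B)`. Proof of `←`: `V ⊗ W` with the tensor product of the inflated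
representations (`Representation.tprod (ρ.comp (MonoidHom.fst A B)) (σ.comp (MonoidHom.snd A B))`)
has character `α ⊗ β` and its norm is the product of the norms (`orth`), use NRM. `→`: otherwise
`ψ` is orthogonal to all `α ⊗ β` (`orth`); for fixed `β` the class function
`a ↦ ∑_b ψ(a, b) β(b⁻¹)` is orthogonal to all `α`, so `0` by CPL; so for fixed `a` the class function
`b ↦ ψ(a, b)` is orthogonal to all `β`, so `0`, but `ψ(1) ≠ 0`. Uses: CPL, NRM. -/
def IRG_stmt : Prop :=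
  ∀ (A B : Type) [Group A] [Group B] [Finite A] [Finite B] (ψ : A × B → ℂ),
    ψ ∈ Irr (A × B) ↔ ∃ α ∈ Irr A, ∃ β ∈ Irr B, ψ = ot α β

/-- Transport of irreducible characters along an isomorphism. Proof: `ρ ↦ ρ ∘ e`. -/
def TRI_stmt : Prop :=
  ∀ (A B : Type) [Group A] [Group B] (e : A ≃* B) (ψ : B → ℂ),
    ψ ∈ Irr B ↔ (fun a => ψ (e a)) ∈ Irr A

/-- Basic facts: `Irr(G)` is finite (`linInd_Irr` in the finite-dimensional space `G → ℂ`), degrees
are positive integers, characters are class functions. -/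
def IRF_stmt : Prop :=
  ∀ (G : Type) [Group G] [Finite G], (Irr G).Finite ∧ ∀ χ ∈ Irr G,
    (∃ n : ℕ, 0 < n ∧ χ 1 = n) ∧ ∀ g h, χ (h * g * h⁻¹) = χ g

/-- Irreducible characters of the subgroup `N₁ × N₂` of `A × B`, and uniqueness of the factors.
Proof: IRG for the groups `N₁, N₂` and TRI for `Subgroup.prodEquiv`. Uniqueness: restricting to
`N₁ × 1` gives `ψ₁ = c ψ₁'` with `c ≠ 0`, so `ψ₁ = ψ₁'` by `linInd_Irr`, then `c = 1`, and the same
for `ψ₂`. Uses: IRG, TRI, IRF. -/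
def IRP_stmt : Prop :=
  ∀ (A B : Type) [Group A] [Group B] [Finite A] [Finite B] (N₁ : Subgroup A) (N₂ : Subgroup B),
    (∀ ψ : ↥(N₁.prod N₂) → ℂ, ψ ∈ Irr ↥(N₁.prod N₂) ↔
      ∃ ψ₁ ∈ Irr N₁, ∃ ψ₂ ∈ Irr N₂, ψ = ots N₁ N₂ ψ₁ ψ₂) ∧
    ∀ ψ₁ ∈ Irr N₁, ∀ ψ₁' ∈ Irr N₁, ∀ ψ₂ ∈ Irr N₂, ∀ ψ₂' ∈ Irr N₂,
      ots N₁ N₂ ψ₁ ψ₂ = ots N₁ N₂ ψ₁' ψ₂' → ψ₁ = ψ₁' ∧ ψ₂ = ψ₂'

/-- Character values are algebraic integers: `ρ(g)^n = 1`, so the trace is a sum of roots of unity
(`Matrix.trace_eq_sum_roots_charpoly`; every root of the characteristic polynomial is an eigenvalue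
`μ` with `μ^n = 1`). -/
def INC_stmt : Prop :=
  ∀ (G : Type) [Group G] [Finite G], ∀ χ ∈ Irr G, ∀ g, IsIntegral ℤ (χ g)

/-- `(∑_{x ∈ S} χ(x)) / χ(1)` is an algebraic integer for every conjugation-invariant set `S`.
Proof: `T = ∑_{x ∈ S} ρ(x)` commutes with all `ρ(g)`, so `T = c` (Schur) and `c` is that number
(take traces). `T` is the image of an element of `ℤ[G]`, a finite `ℤ`-algebra, so `T` is integral
over `ℤ`, and so is `c` (`algebraMap ℂ (End V)` is injective). -/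
def INT_stmt : Prop :=
  ∀ (G : Type) [Group G] [Finite G], ∀ χ ∈ Irr G, ∀ S : Set G, (∀ g ∈ S, ∀ h, h * g * h⁻¹ ∈ S) →
    IsIntegral ℤ ((∑ᶠ x ∈ S, χ x) / χ 1)

/-- The degree divides the group order. Proof: `∑_g χ(g) χ(g⁻¹) = |G|` (`orth`), and by `sum_class`
`|G| / χ(1) = ∑_K (|K| χ(g_K) / χ(1)) χ(g_K⁻¹)` is an algebraic integer (INT for the class
`S = conjugatesOf g_K`, INC) and rational, so an integer. Uses: INC, INT, IRF. -/
def DVD_stmt : Prop :=
  ∀ (G : Type) [Group G] [Finite G], ∀ χ ∈ Irr G, ∀ n : ℕ, χ 1 = n → n ∣ Nat.card G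

/-- The numbers `omega χ g` and `omInd N ψ g` are algebraic integers. Proof: INT with
`S = conjugatesOf g`, a class on which `χ` is constant, and with `S = {x : N | IsConj g x}`.
Uses: INT, IRF. -/
def INN_stmt : Prop :=
  ∀ (G : Type) [Group G] [Finite G],
    (∀ χ ∈ Irr G, ∀ g, IsIntegral ℤ (omega χ g)) ∧
    ∀ N : Subgroup G, ∀ ψ ∈ Irr N, ∀ g, IsIntegral ℤ (omInd N ψ g)

/-- Central characters are multiplicative. Proof: elements of `A × B` are conjugate iff both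
components are; the sum over a product set factors. -/
def OMP_stmt : Prop :=
  ∀ (A B : Type) [Group A] [Group B] [Finite A] [Finite B] (a : A) (b : B),
    (∀ (χ₁ : A → ℂ) (χ₂ : B → ℂ), omega (ot χ₁ χ₂) (a, b) = omega χ₁ a * omega χ₂ b) ∧
    ∀ (N₁ : Subgroup A) (N₂ : Subgroup B) (ψ₁ : N₁ → ℂ) (ψ₂ : N₂ → ℂ),
      omInd (N₁.prod N₂) (ots N₁ N₂ ψ₁ ψ₂) (a, b) = omInd N₁ ψ₁ a * omInd N₂ ψ₂ b

/-- Block induction in products. Proof: write `u_i = omInd ψ_i`, `v_i = omega χ_i`. `←`: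
`u₁ u₂ - v₁ v₂ = (u₁ - v₁) u₂ + v₁ (u₂ - v₂)` and `u₂, v₁` are algebraic integers (INN). `→`: at
`(a, 1)` one has `u₂ = v₂ = 1` (the class of `1` is `{1}`, `ψ₂(1), χ₂(1) ≠ 0`). The second part is
the same with `omega ψ_i` instead of `omInd ψ_i`. Uses: OMP, INN, IRF. -/
def IND_stmt : Prop :=
  ∀ (M : Ideal (integralClosure ℤ ℂ)) (A B : Type) [Group A] [Group B] [Finite A] [Finite B],
    ∀ χ₁ ∈ Irr A, ∀ χ₂ ∈ Irr B,
    (∀ (N₁ : Subgroup A) (N₂ : Subgroup B), ∀ ψ₁ ∈ Irr N₁, ∀ ψ₂ ∈ Irr N₂,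
      (Induces M (N₁.prod N₂) (ot χ₁ χ₂) (ots N₁ N₂ ψ₁ ψ₂) ↔
        Induces M N₁ χ₁ ψ₁ ∧ Induces M N₂ χ₂ ψ₂)) ∧
    ∀ ψ₁ ∈ Irr A, ∀ ψ₂ ∈ Irr B,
      (SameBlock M (ot χ₁ χ₂) (ot ψ₁ ψ₂) ↔ SameBlock M χ₁ ψ₁ ∧ SameBlock M χ₂ ψ₂)

/-- Defects add. Proof: `|N₁ × N₂| = |N₁| |N₂|`, degrees `m₁, m₂ > 0` with `m_i ∣ |N_i|`
(DVD), so `v_p(m_i) ≤ v_p(|N_i|)`, `padicValNat.mul`. (`→`: the natural number in `Defc` for the
product is `m₁ m₂`; take `i = v_p|N₁| - v_p(m₁)`.) The second part is the same for the whole groups;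
the third: every irreducible character has a defect. Uses: DVD, IRF. -/
def DFP_stmt : Prop :=
  ∀ (p : ℕ), p.Prime → ∀ (A B : Type) [Group A] [Group B] [Finite A] [Finite B],
    (∀ (N₁ : Subgroup A) (N₂ : Subgroup B), ∀ ψ₁ ∈ Irr N₁, ∀ ψ₂ ∈ Irr N₂, ∀ d,
      (Defc p (ots N₁ N₂ ψ₁ ψ₂) d ↔ ∃ i j, i + j = d ∧ Defc p ψ₁ i ∧ Defc p ψ₂ j)) ∧
    (∀ ψ₁ ∈ Irr A, ∀ ψ₂ ∈ Irr B, ∀ d,
      (Defc p (ot ψ₁ ψ₂) d ↔ ∃ i j, i + j = d ∧ Defc p ψ₁ i ∧ Defc p ψ₂ j)) ∧
    ∀ ψ ∈ Irr A, ∃ d, Defc p ψ d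

/-- Stabilisers in products. Write `F_i(e)` for `∃ g, Fixes .. (e * ι g)`. Proof: first
`Fixes` for the product at `(e₁, e₂)` holds iff `Fixes` holds at `e₁` and at `e₂` (`→`: use pairs
`(x, 1)`, `(y, 1)`, the members of `S` are products, and `ψ₂ 1 ≠ 0`). So `StabIs` for the product
says: for all `(e₁, e₂)`, `e₁ ∈ U₁ ∧ e₂ ∈ U₂ ↔ F₁(e₁) ∧ F₂(e₂)`. As `1 ∈ U_i` and `F_i(1)` is true
(`g = 1`, `ι` is injective), this is equivalent to the two separate statements. -/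
def STB_stmt : Prop :=
  ∀ (A B EA EB : Type) [Group A] [Group B] [Group EA] [Group EB] (ιA : A →* EA) (ιB : B →* EB),
    Function.Injective ιA → Function.Injective ιB →
    ∀ S : Set (Subgroup (A × B)), (∀ Q ∈ S, Q = (p1 Q).prod (p2 Q)) →
    ∀ (N₁ : Subgroup A) (N₂ : Subgroup B) (ψ₁ : N₁ → ℂ) (ψ₂ : N₂ → ℂ), ψ₁ 1 ≠ 0 → ψ₂ 1 ≠ 0 →
    ∀ (U₁ : Subgroup EA) (U₂ : Subgroup EB),
      (StabIs (ιA.prodMap ιB) S (N₁.prod N₂) (ots N₁ N₂ ψ₁ ψ₂) (U₁.prod U₂) ↔
        StabIs ιA (p1 '' S) N₁ ψ₁ U₁ ∧ StabIs ιB (p2 '' S) N₂ ψ₂ U₂)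

/-- The number of characters in a product. Proof: by IRP, IND, STB, DFP the set on the left is the
image under the injective map `(ψ₁, ψ₂) ↦ ots ψ₁ ψ₂` of the disjoint union over `i + j = d` of
`kset(.., i, U₁) × kset(.., j, U₂)` (disjoint since `Defc p ψ i` determines `i`).
Uses: IRP, IND, STB, DFP, IRF. -/
def KKP_stmt : Prop :=
  ∀ (p : ℕ), p.Prime → ∀ (M : Ideal (integralClosure ℤ ℂ)) (A B EA EB : Type) [Group A] [Group B]
    [Finite A] [Finite B] [Group EA] [Group EB] (ιA : A →* EA) (ιB : B →* EB),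
    Function.Injective ιA → Function.Injective ιB → ∀ χ₁ ∈ Irr A, ∀ χ₂ ∈ Irr B,
    ∀ S : Set (Subgroup (A × B)), (∀ Q ∈ S, Q = (p1 Q).prod (p2 Q)) →
    ∀ (N₁ : Subgroup A) (N₂ : Subgroup B) (d : ℕ) (U₁ : Subgroup EA) (U₂ : Subgroup EB),
      (kset p M (ιA.prodMap ιB) (ot χ₁ χ₂) (N₁.prod N₂) S d (U₁.prod U₂)).ncard =
        ∑ ij ∈ Finset.HasAntidiagonal.antidiagonal d, (kset p M ιA χ₁ N₁ (p1 '' S) ij.1 U₁).ncard *
          (kset p M ιB χ₂ N₂ (p2 '' S) ij.2 U₂).ncard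

/-- The same for chains. Proof: `kC` depends only on `NC C` and on the set of members; use NCP,
DDM (members of `p1 P₀ :: dd (p1 P₀) (C.map p1)` are the members of `(P₀ :: C).map p1`) and KKP.
Second part: `Nat.card (N₁.prod N₂) = Nat.card N₁ * Nat.card N₂`. Uses: KKP, NCP, DDM. -/
def KPC_stmt : Prop :=
  ∀ (p : ℕ), p.Prime → ∀ (M : Ideal (integralClosure ℤ ℂ)) (A B EA EB : Type) [Group A] [Group B]
    [Finite A] [Finite B] [Group EA] [Group EB] (ιA : A →* EA) (ιB : B →* EB),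
    Function.Injective ιA → Function.Injective ιB → ∀ χ₁ ∈ Irr A, ∀ χ₂ ∈ Irr B,
    ∀ (P₀ : Subgroup (A × B)) (C : List (Subgroup (A × B))),
    (∀ Q ∈ P₀ :: C, Q = (p1 Q).prod (p2 Q)) →
    (∀ (d : ℕ) (U₁ : Subgroup EA) (U₂ : Subgroup EB),
      kC p M (ιA.prodMap ιB) (ot χ₁ χ₂) (P₀ :: C) d (U₁.prod U₂) =
        ∑ ij ∈ Finset.HasAntidiagonal.antidiagonal d,
          kC p M ιA χ₁ (p1 P₀ :: dd (p1 P₀) (C.map p1)) ij.1 U₁ *
          kC p M ιB χ₂ (p2 P₀ :: dd (p2 P₀) (C.map p2)) ij.2 U₂) ∧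
    Nat.card (NC (P₀ :: C)) = Nat.card (NC (p1 P₀ :: dd (p1 P₀) (C.map p1))) *
      Nat.card (NC (p2 P₀ :: dd (p2 P₀) (C.map p2)))

/-- THE PRODUCT FORMULA. Proof: let `P₁ = O_p(A)`, `P₂ = O_p(B)` (OPE), so `O_p(A × B) = P₁ × P₂`
(OPP; `⊤ = ⊤.prod ⊤`). By ALW the left side is `W p ⊤ (P₁ × P₂)` of the function `C ↦` (number of
characters times `|NC| / |A × B|`) of `(P₁ × P₂) :: C`. For the continuations `C` (RTP) this
function is by KPC the sum over `i + j = d` of the products of the functions for `A`, `B` at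
`P₁ :: dd P₁ (C.map p1)`, `P₂ :: dd P₂ (C.map p2)`. `W` is additive in the function (FIN), use PID for
every `(i, j)` and ALW back. Uses: OPE, OPP, NPR, ALW, RTP, KPC, PID, FIN. -/
def PRD_stmt : Prop :=
  ∀ (p : ℕ), p.Prime → ∀ (M : Ideal (integralClosure ℤ ℂ)) (A B EA EB : Type) [Group A] [Group B]
    [Finite A] [Finite B] [Group EA] [Group EB] (ιA : A →* EA) (ιB : B →* EB),
    Function.Injective ιA → Function.Injective ιB → ∀ χ₁ ∈ Irr A, ∀ χ₂ ∈ Irr B,
    ∀ (d : ℕ) (U₁ : Subgroup EA) (U₂ : Subgroup EB),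
      altQ p M (ιA.prodMap ιB) (ot χ₁ χ₂) d (U₁.prod U₂) =
        ∑ ij ∈ Finset.HasAntidiagonal.antidiagonal d, altQ p M ιA χ₁ ij.1 U₁ * altQ p M ιB χ₂ ij.2 U₂

/-! ## C. Independence of the set of representatives -/

/-- `k_C` is invariant under conjugation. Proof: let `c = conj g`. `NC (C.map c) = (NC C).map c`, and
`ψ ↦ ψ ∘ c⁻¹` is a bijection of the two sets `kset`: `Irr` by TRI for the isomorphism
`NC C ≃* (NC C).map c`; `Defc` is clear; `omInd` does not change as `x` and `c(x)` are conjugate in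
`G`; for `StabIs`: `Fixes (S^g, ψ^g) (e) ↔ Fixes (S, ψ) (ι(g)⁻¹ e ι(g))`, and
`ι(g)⁻¹ (e ι(h)) ι(g) = e ι(h')` with `h'` running through `G` when `h` does, since `ι(G)` is
normal in `E`. Uses: TRI. -/
def CJK_stmt : Prop :=
  ∀ (G E : Type) [Group G] [Group E] (ι : G →* E), Function.Injective ι → ι.range.Normal →
    ∀ (p : ℕ) (M : Ideal (integralClosure ℤ ℂ)) (χ : G → ℂ) (C C' : List (Subgroup G)) (d : ℕ)
      (U : Subgroup E), Conj C C' → kC p M ι χ C' d U = kC p M ι χ C d U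

/-- The number of conjugates of a chain. Proof: `G` acts on lists of subgroups by conjugation
(`C.map`), the stabiliser of `C` is `NC C` (a list is fixed iff every member is fixed; `P.map (conj g)
= P` iff `g ∈ normalizer P`); orbit-stabiliser. -/
def CJC_stmt : Prop :=
  ∀ (G : Type) [Group G] [Finite G] (C : List (Subgroup G)),
    {C' : List (Subgroup G) | Conj C C'}.ncard * Nat.card (NC C) = Nat.card G

/-- Being conjugate is an equivalence relation, conjugates of radical chains are radical.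
Proof: `NC (C.map c) = (NC C).map c`, `IsOp p (H.map c) (P.map c) ↔ IsOp p H P`. -/
def CJR_stmt : Prop :=
  ∀ (G : Type) [Group G], Equivalence (Conj (G := G)) ∧
    ∀ (p : ℕ) (C C' : List (Subgroup G)), Conj C C' → Radical p C → Radical p C'

/-- Sum over representatives = weighted sum over all radical chains. Proof: the radical chains are
the disjoint union of the classes of the members of `T`; by CJC the class of `C` has
`|G| / |NC C|` members, for which `f` and `|NC|` are constant. Uses: CJC, CJR, FIN. -/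
def TRG_stmt : Prop :=
  ∀ (G : Type) [Group G] [Finite G] (p : ℕ) (T : Finset (List (Subgroup G))), Trans p T →
    ∀ f : List (Subgroup G) → ℚ, (∀ C C', Conj C C' → f C = f C') →
      ∑ C ∈ T, f C =
        ∑ᶠ C ∈ {C : List (Subgroup G) | Radical p C}, f C * Nat.card (NC C) / Nat.card G

/-- Sets of representatives exist. Proof: the finite set of all radical chains (FIN); for each class
choose a representative (`Quotient.out` for the setoid of CJR), take the image. Uses: FIN, CJR. -/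
def TRE_stmt : Prop :=
  ∀ (G : Type) [Group G] [Finite G] (p : ℕ), ∃ T : Finset (List (Subgroup G)), Trans p T

/-- The alternating sum of Dade's conjecture as a sum over all radical chains. Proof: TRG for
`f C = (-1)^(C.length - 1) k_C` (invariant by CJK; conjugate lists have the same length).
Uses: TRG, CJK. -/
def ALT_stmt : Prop :=
  ∀ (G E : Type) [Group G] [Finite G] [Group E] (ι : G →* E), Function.Injective ι →
    ι.range.Normal → ∀ (p : ℕ) (M : Ideal (integralClosure ℤ ℂ)) (χ : G → ℂ)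
      (T : Finset (List (Subgroup G))), Trans p T → ∀ (d : ℕ) (U : Subgroup E),
      (altT p M ι χ T d U : ℚ) = altQ p M ι χ d U

/-! ## D. Defect of blocks of products -/

/-- The block of `χ₁ ⊗ χ₂` has positive defect if the block of `χ₁` has. Proof: `ψ₁` in the
block of `χ₁` with `v_p(ψ₁(1)) < v_p|A|`; take `ψ₁ ⊗ χ₂` (IRG, IND, `SameBlock` is reflexive);
`v_p(χ₂(1)) ≤ v_p|B|` (DVD). Uses: IRG, IND, DVD, IRF. -/
def POS_stmt : Prop :=
  ∀ (p : ℕ), p.Prime → ∀ (M : Ideal (integralClosure ℤ ℂ)) (A B : Type) [Group A] [Group B]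
    [Finite A] [Finite B], ∀ χ₁ ∈ Irr A, ∀ χ₂ ∈ Irr B,
    HasPositiveDefect p {ψ | ψ ∈ Irr A ∧ SameBlock M χ₁ ψ} →
    HasPositiveDefect p {ψ | ψ ∈ Irr (A × B) ∧ SameBlock M (ot χ₁ χ₂) ψ}

/-- The defect of the block of `χ₁ ⊗ χ₂` is the sum of the defects; a block with a character of
degree `m`, `v_p(m) < v_p|G|`, has positive defect. Proof: by IRG, IND, DFP the set in the
definition of `df` for `A × B` is the set of the sums `i + j` of members of the sets for `A` and for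
`B`; these are nonempty (`χ_i` itself, DFP) and bounded by `v_p` of the order. Uses: IRG, IND,
DFP. -/
def DFA_stmt : Prop :=
  ∀ (p : ℕ), p.Prime → ∀ (M : Ideal (integralClosure ℤ ℂ)) (A B : Type) [Group A] [Group B]
    [Finite A] [Finite B], ∀ χ₁ ∈ Irr A, ∀ χ₂ ∈ Irr B,
    df p M (ot χ₁ χ₂) = df p M χ₁ + df p M χ₂ ∧
    (HasPositiveDefect p {ψ | ψ ∈ Irr A ∧ SameBlock M χ₁ ψ} → 0 < df p M χ₁)

/-! ## E. Polynomials and growth -/

/-- Powers of an integer polynomial `P` which is not `0` and not `± X^a`. Proof: `∑ a_i² ≥ 2` for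
the coefficients `a_i` of `P`. Let `n > natDegree P` and let `ζ` run through the `n`-th roots of unity:
the mean of `|P(ζ)|²` is `∑ a_i²` (orthogonality), so `|P(ζ)|² ≥ 2` for some `ζ`. Let
`Q = P^(2m)`, with coefficients `q_d`, `d ≤ 2 m natDegree P`. Then `∑ |q_d| ≥ |Q(ζ)| ≥ 2^m` and
`∑ q_d = P(1)^(2m) ≥ 0`, so the sum of the positive `q_d` is at least `2^(m-1)`; there are at most
`2 m natDegree P + 1` of them. -/
def PO1_stmt : Prop :=
  ∀ P : Polynomial ℤ, P ≠ 0 → (∀ a : ℕ, P ≠ Polynomial.X ^ a ∧ P ≠ -Polynomial.X ^ a) →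
    ∀ m : ℕ, 1 ≤ m → ∃ d : ℕ,
      (2 : ℤ) ^ (m - 1) ≤ (2 * m * P.natDegree + 1) * (P ^ (2 * m)).coeff d

/-- Elementary growth. Proof: `c = log 2 / (4 D)`: `exp(2 c m D) = 2^(m/2)`, and
`2^(m/2) (2 m n + 1) ≤ 2^(m-1)` for all large `m`. -/
def PO2_stmt : Prop :=
  ∀ D n : ℕ, 0 < D → ∃ c : ℝ, 0 < c ∧ ∀ N : ℕ, ∃ m : ℕ, 1 ≤ m ∧ N ≤ 2 * m * D ∧
    Real.exp (c * (2 * m * D)) * (2 * m * n + 1) ≤ 2 ^ (m - 1)

end Pool.Agent.DD
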