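import Pool.Agent.helper12.DD.Cases

/-!
# Project dw: (MP_baa4d7_al, Dade's invariant conjecture, x10), stage 2: wreath products

TARGET. Dade's invariant conjecture for `p` holds iff the alternating sums are bounded above by a
subexponential function of the defect of the block. Stage 1 (hand-in DadeGrowth) proves: either all
cases are zero or `Single` (exactly one of the alternating sums is not `0`, and it is `± 1`), or the
sums grow exponentially. Here we show that it is impossible that all cases are zero or `Single`, but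
not all are zero.

PROOF. Let `X = (G, E, χ, U)` be a case with a nonzero sum. We may assume that `E` is finite (FNE) and
`U = E` (MXU), and `d(χ) > 0`. By assumption `P_X = ± t^a`, and `a > 0` (AL0). Let `q ≠ p` be a prime
`> |E|`, `Q` a group of order `q`, `K = G^Q`, `W = G ≀ Q`, `E' = {(f, c) ∈ E ≀ Q : all f(t) congruent
modulo G}`, `V₀ = {(f, 1) ∈ E'}`, `χ̂` an extension to `W` of `χ^Q = χ ⊗ ... ⊗ χ`, and `d = q a`. By
Clifford theory for the index `q`
`alt(W, E', χ̂, d, E') = q alt(K, E', χ^Q, d, E') + (1/q) alt(K, E', χ^Q, d, V₀)` (IQA), and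
`alt(K, E', χ^Q, d, E') + alt(K, E', χ^Q, d, V₀) = (P_X^q)_d = ± 1` (PWF, PWR). All the sums `alt` are in
`{0, 1, -1}` by assumption, so one of the last two is `0` and the other `± 1`, and `alt(W, ..)` is
`± 1/q` or `± q`: a contradiction.

RULES FOR MODULES as in `Pool/Agent/helper12/DD/Spec.lean`, with `import
Pool.Agent.helper12.DD.Spec2`; file `Pool/Agent/<seat>/DW/XX.lean`, `namespace Pool.Agent.DD`,
`theorem XX (h : YY_stmt) ... : XX_stmt`, lemmas prefixed `XX_`. All theorems of stage 1 are available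
without hypotheses: `CPL`, `NRM`, `TRI`, `IRF`, `INC`, `INT`, `all_IRG`, `all_IRP`, `all_INN`, `all_DVD`,
`all_PRD`, `all_CJK`, `OPE`, `RAD`, `FIN`, `all_ALT`, ... (see `Pool/Agent/helper12/DD/All.lean`,
`Cases.lean`, statements in `Spec.lean`).
-/

set_option autoImplicit false

open Pool.Agent.helper49.Blk

namespace Pool.Agent.DD

/-! ## Definitions -/

/-- The image of a chain of subgroups of `K` in `W`. -/
abbrev cW {K W : Type} [Group K] [Group W] (κ : K →* W) (C : List (Subgroup K)) :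
    List (Subgroup W) := C.map (Subgroup.map κ)

/-- `ψ` is a constituent of the restriction of `φ` along `j`. -/
def Ovr {A B : Type} [Group A] [Group B] (j : A →* B) (φ : B → ℂ) (ψ : A → ℂ) : Prop :=
  ∑ᶠ x : A, φ (j x) * ψ x⁻¹ ≠ 0

/-- `ψ` is invariant under `B`. -/
def Ivt {A B : Type} [Group A] [Group B] (j : A →* B) (ψ : A → ℂ) : Prop :=
  ∀ (b : B) (x y : A), j y = b * j x * b⁻¹ → ψ y = ψ x

/-- The function `χ ⊗ ... ⊗ χ` on `T → G`. -/
def tpow {G : Type} (T : Type) [Fintype T] (χ : G → ℂ) : (T → G) → ℂ := fun f => ∏ t, χ (f t)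

/-- The function `⊗ ψ_t` on the product of the subgroups `N t`. -/
def tps {G T : Type} [Group G] [Fintype T] (N : T → Subgroup G) (ψ : ∀ t, N t → ℂ) :
    ↥(Subgroup.pi Set.univ N) → ℂ :=
  fun x => ∏ t, ψ t ⟨x.1 t, x.2 t (Set.mem_univ t)⟩

/-- Component `t` of a subgroup of `T → G`. -/
abbrev cmp {G T : Type} [Group G] (t : T) (R : Subgroup (T → G)) : Subgroup G :=
  R.map (Pi.evalMonoidHom (fun _ => G) t)

/-- `Q` acts on `Q → G` by translation. -/
def shift (G Q : Type) [Group G] [Group Q] : Q →* MulAut (Q → G) where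
  toFun c :=
    { toFun := fun f t => f (c⁻¹ * t)
      invFun := fun f t => f (c * t)
      left_inv := fun f => by funext t; simp
      right_inv := fun f => by funext t; simp
      map_mul' := fun f g => rfl }
  map_one' := by
    ext f t
    simp
  map_mul' c d := by
    ext f t
    simp [mul_assoc]

/-- The wreath product `G ≀ Q`. -/
abbrev Wr (G Q : Type) [Group G] [Group Q] : Type := (Q → G) ⋊[shift G Q] Q

/-- The group `E'` of all `(f, c)` in `E ≀ Q` such that all `f t` are congruent modulo `G`. -/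
def WE {G E : Type} [Group G] [Group E] (ι : G →* E) (hn : ι.range.Normal) (Q : Type) [Group Q] :
    Subgroup (Wr E Q) where
  carrier := {x | ∀ s t, x.left s * (x.left t)⁻¹ ∈ ι.range}
  mul_mem' := by
    intro x y hx hy s t
    have h1 := hy (x.right⁻¹ * s) (x.right⁻¹ * t)
    have h2 := hn.conj_mem _ h1 (x.left s)
    have h3 := mul_mem h2 (hx s t)
    have e : (x * y).left s * ((x * y).left t)⁻¹ =
        x.left s * (y.left (x.right⁻¹ * s) * (y.left (x.right⁻¹ * t))⁻¹) * (x.left s)⁻¹ *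
          (x.left s * (x.left t)⁻¹) := by
      change x.left s * y.left (x.right⁻¹ * s) * (x.left t * y.left (x.right⁻¹ * t))⁻¹ = _
      group
    rw [e]
    exact h3
  one_mem' := by
    intro s t
    simp
  inv_mem' := by
    intro x hx s t
    have h1 := hx (x.right * s) (x.right * t)
    have h2 := hn.conj_mem _ h1 (x.left (x.right * s))⁻¹
    have h3 := inv_mem h2
    have e : (x⁻¹).left s * ((x⁻¹).left t)⁻¹ =
        (x.left (x.right * s))⁻¹ * (x.left (x.right * t)) := by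
      rw [SemidirectProduct.inv_left]
      change (x.left ((x.right⁻¹)⁻¹ * s))⁻¹ * ((x.left ((x.right⁻¹)⁻¹ * t))⁻¹)⁻¹ = _
      rw [inv_inv, inv_inv]
    change (x⁻¹).left s * ((x⁻¹).left t)⁻¹ ∈ ι.range
    rw [e]
    have e2 : (x.left (x.right * s))⁻¹ * (x.left (x.right * t)) =
        ((x.left (x.right * s))⁻¹ * (x.left (x.right * s) * (x.left (x.right * t))⁻¹) *
          ((x.left (x.right * s))⁻¹)⁻¹)⁻¹ := by
      group
    rw [e2]
    exact h3

/-- The embedding of `W = G ≀ Q` in `E'`. -/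
def wι {G E : Type} [Group G] [Group E] (ι : G →* E) (hn : ι.range.Normal) (Q : Type) [Group Q] :
    Wr G Q →* WE ι hn Q where
  toFun x := ⟨⟨fun t => ι (x.left t), x.right⟩, fun s t => ⟨x.left s * (x.left t)⁻¹, by simp⟩⟩
  map_one' := by
    apply Subtype.ext
    apply SemidirectProduct.ext
    · funext t
      simp
    · rfl
  map_mul' x y := by
    apply Subtype.ext
    apply SemidirectProduct.ext
    · funext t
      simp only [SemidirectProduct.mul_left, Pi.mul_apply, map_mul, Subgroup.coe_mul]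
      rfl
    · rfl

/-- The embedding of `K = G^Q` in `W`. -/
abbrev κι (G Q : Type) [Group G] [Group Q] : (Q → G) →* Wr G Q := SemidirectProduct.inl

/-- The subgroup `V₀` of all `(f, 1)` in `E'`. -/
def V0 {G E : Type} [Group G] [Group E] (ι : G →* E) (hn : ι.range.Normal) (Q : Type) [Group Q] :
    Subgroup (WE ι hn Q) where
  carrier := {x | x.1.right = 1}
  mul_mem' := by
    intro x y hx hy
    change (x.1 * y.1).right = 1
    rw [SemidirectProduct.mul_right, show x.1.right = 1 from hx, show y.1.right = 1 from hy, mul_one]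
  one_mem' := rfl
  inv_mem' := by
    intro x hx
    change (x.1⁻¹).right = 1
    rw [SemidirectProduct.inv_right, show x.1.right = 1 from hx, inv_one]

/-- The situation of Clifford theory for the index `q`: finite groups `K ≤ W ≤ E`, all normal in
`E`, `|W : K| = q`, `E` acts trivially on `W / K` and the order of `E / W` divides `m`; `V₀` is the
only subgroup of `E` with `K ≤ V₀`, `V₀ ∩ W = K`, `V₀ W = E`. -/
structure Tower (q m : ℕ) {K W E : Type} [Group K] [Group W] [Group E] (κ : K →* W) (ω : W →* E)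
    (V₀ : Subgroup E) : Prop where
  κinj : Function.Injective κ
  ωinj : Function.Injective ω
  κnor : κ.range.Normal
  ωκnor : (ω.comp κ).range.Normal
  ωnor : ω.range.Normal
  card : Nat.card W = q * Nat.card K
  comm : ∀ (e : E) (w : W), ∃ x : K, e * ω w * e⁻¹ = ω (κ x * w)
  pow : ∀ e : E, ∃ w : W, e ^ m = ω w
  V0K : (ω.comp κ).range ≤ V₀
  V0i : ∀ w : W, ω w ∈ V₀ → w ∈ κ.range
  V0s : ∀ e : E, ∃ v ∈ V₀, ∃ w : W, e = v * ω w
  V0u : ∀ V : Subgroup E, (ω.comp κ).range ≤ V → (∀ w : W, ω w ∈ V → w ∈ κ.range) →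
    (∀ e : E, ∃ v ∈ V, ∃ w : W, e = v * ω w) → V = V₀
  V0m : ∀ V : Subgroup E, V₀ ≤ V → V = V₀ ∨ V = ⊤

/-! ## F. General facts on the alternating sums -/

/-- The sums depend only on the block of `χ`. Proof: `Induces M N χ ψ ↔ Induces M N χ' ψ`. -/
def BLC_stmt : Prop :=
  ∀ (G E : Type) [Group G] [Group E] (ι : G →* E) (p : ℕ) (M : Ideal (integralClosure ℤ ℂ))
    (χ χ' : G → ℂ), SameBlock M χ χ' → ∀ (d : ℕ) (U : Subgroup E),
    altQ p M ι χ d U = altQ p M ι χ' d U

/-- Transport along isomorphisms `α : G ≃* G'`, `β : E ≃* E'`. Proof: `C ↦ C.map (map α)` is a bijection of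
the radical chains, `NC (C.map (map α)) = (NC C).map α`, and `ψ ↦ ψ ∘ α` a bijection of the sets
`kset` (compare the proof of `CJK` in `Pool/Agent/helper97/DD/CJK.lean`). -/
def TRP_stmt : Prop :=
  ∀ (G E G' E' : Type) [Group G] [Group E] [Group G'] [Group E'] (ι : G →* E) (ι' : G' →* E')
    (α : G ≃* G') (β : E ≃* E'), (∀ x, ι' (α x) = β (ι x)) →
    ∀ (p : ℕ) (M : Ideal (integralClosure ℤ ℂ)) (χ' : G' → ℂ) (d : ℕ) (U : Subgroup E),
      altQ p M ι' χ' d (U.map β.toMonoidHom) = altQ p M ι (fun x => χ' (α x)) d U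

/-- The stabiliser of `(C, ψ)` times `G` is a subgroup of `E`. Proof: the elements `e` with
`Fixes ι S N ψ e` form a subgroup `S'` (an element which normalises all members of `C` normalises
`N = NC C`; `ι(G)` is normal, so for `x : G` there is `z : G` with `ι z = e ι x e⁻¹`), and
`V = {e | ∃ g, e * ι g ∈ S'}` is the product of `S'` and the normal subgroup `ι(G)`. It contains
`ι(G)`. -/
def STS_stmt : Prop :=
  ∀ (G E : Type) [Group G] [Group E] (ι : G →* E), Function.Injective ι → ι.range.Normal →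
    ∀ (C : List (Subgroup G)) (N : Subgroup G), N = NC C → ∀ ψ : N → ℂ,
      (∃ S' : Subgroup E, ∀ e, e ∈ S' ↔ Fixes ι {P | P ∈ C} N ψ e) ∧
      ∃ V : Subgroup E, StabIs ι {P | P ∈ C} N ψ V ∧ ι.range ≤ V

/-- Restriction to a subgroup `U₁` of `E` which contains `G`. Proof: for every `(C, ψ)` let `V` be the
subgroup of STS (the only one with `StabIs ι .. V`); `StabIs` for `U₁` instead of `E` and for `⊤` holds
iff `U₁ ≤ V`. So the set `kset` for `U₁` is the disjoint union over `V ≥ U₁` of the sets `kset` for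
`E` and `V`; sum over `V` and over the chains (FIN; `Subgroup E` is finite). Uses: STS. -/
def RES_stmt : Prop :=
  ∀ (G E : Type) [Group G] [Finite G] [Group E] [Finite E] (ι : G →* E), Function.Injective ι →
    ι.range.Normal → ∀ (p : ℕ) (M : Ideal (integralClosure ℤ ℂ)) (χ : G → ℂ) (d : ℕ)
    (U₁ : Subgroup E) (h : ∀ x, ι x ∈ U₁),
    altQ p M (ι.codRestrict U₁ h) χ d ⊤ = ∑ᶠ V ∈ {V : Subgroup E | U₁ ≤ V}, altQ p M ι χ d V

/-- Reduction to finite `E`. Proof: let `π : E →* MulAut G` be the action by conjugation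
(`ι (π e x) = e ι x e⁻¹`), `H = π.range`, a finite group, `E' = G ⋊ H` (`H.subtype` as action),
`ι' = inl`, `U' = {(g, h) | h ∈ π(U)}`. `Fixes ι S N ψ e` depends only on the automorphism of `G`
induced by `e`, and `(g, h)` induces `conj g * h`. As some sum is not zero, `StabIs ι .. U` holds for
some `(C, ψ)`, so `U` contains the kernel of `π` and `ι(G)`. Hence `StabIs ι .. U ↔ StabIs ι' .. U'` for
all `(C, ψ)`: `h c_x = c_(h x) h` for `x ∈ G`. -/
def FNE_stmt : Prop :=
  ∀ (G E : Type) [Group G] [Finite G] [Group E] (ι : G →* E), Function.Injective ι →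
    ι.range.Normal → ∀ (p : ℕ) (M : Ideal (integralClosure ℤ ℂ)) (χ : G → ℂ) (U : Subgroup E),
    (∃ d, altQ p M ι χ d U ≠ 0) →
    ∃ (E' : Type) (_ : Group E') (_ : Finite E') (ι' : G →* E') (U' : Subgroup E'),
      Function.Injective ι' ∧ ι'.range.Normal ∧ ∀ d, altQ p M ι' χ d U' = altQ p M ι χ d U

/-- Reduction to `U = E`. Proof: let `U₁` be maximal among the `U` such that some sum is not zero.
Then `ι(G) ≤ U₁` (some `StabIs .. U₁` holds) and in RES all terms with `V ≠ U₁` are zero.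
Uses: RES. -/
def MXU_stmt : Prop :=
  ∀ (G E : Type) [Group G] [Finite G] [Group E] [Finite E] (ι : G →* E), Function.Injective ι →
    ι.range.Normal → ∀ (p : ℕ) (M : Ideal (integralClosure ℤ ℂ)) (χ : G → ℂ),
    (∃ (U : Subgroup E) (d : ℕ), altQ p M ι χ d U ≠ 0) →
    ∃ (U₁ : Subgroup E) (h : ∀ x, ι x ∈ U₁) (d : ℕ), altQ p M (ι.codRestrict U₁ h) χ d ⊤ ≠ 0

/-! ## Z. Characters of defect zero -/

/-- Nilpotency modulo `p`. Let `P` be a normal `p`-subgroup of `N` and `z = ∑_y y (x - 1) g y⁻¹` in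
`ℤ[N]` for some `x ∈ P`, `g ∈ N`. Then some power of `z` is divisible by `p`. Proof: in
`R = (ZMod p)[N]` let `I` be the left ideal generated by all `x - 1`, `x ∈ P`; as
`g (x - 1) = (g x g⁻¹ - 1) g` it is two-sided; `z` maps into `I`. Every nonzero finite `R`-module `L`
has a nonzero submodule `L^P` (the number of fixed points of a `p`-group on the finite `p`-group `L` is
divisible by `p`, `IsPGroup.card_modEq_card_fixedPoints`; `L^P` is a submodule as `P` is normal) killed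
by `I`. By induction on `|L|` some power of `I` kills `L`, so `I` is nilpotent (take `L = R`). -/
def NIL_stmt : Prop :=
  ∀ (N : Type) [Group N] [Fintype N] (p : ℕ), p.Prime → ∀ P : Subgroup N, P.Normal →
    IsPGroup p P → ∀ x ∈ P, ∀ g : N, ∃ (m : ℕ) (w : MonoidAlgebra ℤ N), 0 < m ∧
      (∑ y : N, (MonoidAlgebra.single (y * (x * g) * y⁻¹) (1 : ℤ) -
        MonoidAlgebra.single (y * g * y⁻¹) (1 : ℤ))) ^ m = (p : MonoidAlgebra ℤ N) * w

/-- Characters of groups with a nontrivial normal `p`-subgroup have positive defect. Proof: suppose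
`h = |N| / ψ(1)` is prime to `p` (DVD). STEP 1: `ψ(x g) - ψ(g) ∈ M` for `x ∈ P`, `g ∈ N`. The element
`z` of NIL is central and acts on the module of `ψ` by the scalar
`c = |N| (ψ(x g) - ψ(g)) / ψ(1) = h (ψ(x g) - ψ(g))`, and `z^m = p w`. If `c ≠ 0` then `w` acts by the scalar
`c^m / p`, an algebraic integer as `ℤ[N]` is a finite `ℤ`-algebra (compare `INT`); so in any case
`c^m ∈ p A ⊆ M`, `A` the ring of algebraic integers, and `c ∈ M`, and as `h ∉ M` the claim follows.
STEP 2: `∑_a ψ(a⁻¹) ψ(g⁻¹ a) = h ψ(g⁻¹)` (`∑_a ψ(a⁻¹) ρ(a) = h`, by Schur and orthogonality; multiply by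
`ρ(g⁻¹)` and take traces). The terms for `a` and `x a`, `x ∈ P`, are congruent modulo `M` by step 1, so
the left side is `≡ |P| (..) ≡ 0`, hence `ψ(g) ∈ M` for all `g`. STEP 3:
`h = ∑_K omega ψ g_K * ψ(g_K⁻¹) ∈ M` (sum over the classes), a contradiction. Uses: NIL. -/
def ZPN_stmt : Prop :=
  ∀ (p : ℕ), p.Prime → ∀ (M : Ideal (integralClosure ℤ ℂ)), M.IsMaximal →
    (p : integralClosure ℤ ℂ) ∈ M → ∀ (N : Type) [Group N] [Finite N] (P : Subgroup N), P.Normal →
    IsPGroup p P → P ≠ ⊥ → ∀ ψ ∈ Irr N, ∀ n : ℕ, ψ 1 = n →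
    padicValNat p n < padicValNat p (Nat.card N)

/-- A character of defect zero is alone in its block. Proof: suppose `h = |G| / ψ(1)` is prime to
`p` and `χ ≠ ψ` is in the block. `∑_g ψ(g⁻¹) χ(g) = 0` gives `0 = ∑_K ψ(g_K⁻¹) omega χ g_K ≡
∑_K ψ(g_K⁻¹) omega ψ g_K = h` modulo `M` (sums over the classes, `sum_class`). So `h ∈ M`, but `p` does
not divide `h`: a contradiction. -/
def ZBL_stmt : Prop :=
  ∀ (p : ℕ), p.Prime → ∀ (M : Ideal (integralClosure ℤ ℂ)), M.IsMaximal →
    (p : integralClosure ℤ ℂ) ∈ M → ∀ (G : Type) [Group G] [Finite G], ∀ χ ∈ Irr G, ∀ ψ ∈ Irr G,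
    SameBlock M χ ψ → ∀ m n : ℕ, χ 1 = m → ψ 1 = n →
    padicValNat p m < padicValNat p (Nat.card G) → padicValNat p n < padicValNat p (Nat.card G)

/-- The alternating sums for `d = 0` are zero. Proof: all sets `kset` for `d = 0` are empty. Let `C` be a
radical chain with last member `P` and `ψ ∈ Irr (NC C)` with `Defc p ψ 0`, so
`v_p(ψ(1)) = v_p |NC C|`. If `P ≠ 1`, then `P` is a normal `p`-subgroup of `NC C`, contradiction to ZPN.
Otherwise `C = [⊥]`, `NC C = ⊤`, and `ψ` lies in the block of `χ` (`Induces` for `N = ⊤`), which has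
positive defect: contradiction to ZBL. Uses: ZPN, ZBL. -/
def AL0_stmt : Prop :=
  ∀ (p : ℕ), p.Prime → ∀ (M : Ideal (integralClosure ℤ ℂ)), M.IsMaximal →
    (p : integralClosure ℤ ℂ) ∈ M → ∀ (G E : Type) [Group G] [Finite G] [Group E] (ι : G →* E),
    IsOp p (⊤ : Subgroup G) ⊥ → ∀ χ ∈ Irr G,
    HasPositiveDefect p {ψ | ψ ∈ Irr G ∧ SameBlock M χ ψ} → ∀ U : Subgroup E,
    altQ p M ι χ 0 U = 0

/-! ## G. Products of `T` copies of `G` -/

/-- `O_p(G^T) = 1` if `O_p(G) = 1`. Projections of normal `p`-subgroups. -/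
def TOP_stmt : Prop :=
  ∀ (G T : Type) [Group G] [Fintype T] (p : ℕ), IsOp p (⊤ : Subgroup G) ⊥ →
    IsOp p (⊤ : Subgroup (T → G)) ⊥

/-- All members of a radical chain of `T → G` are products. Proof: by induction on the index. Let
`X` be a member, `Y` the product of its components, a `p`-group containing `X`. If `X = P₀ = O_p(⊤)`, then
`Y` is normalised by everything, so `Y ≤ X`. Otherwise let `C'` be the part of the chain up to `X`,
`N = NC C'`, `X = O_p(N)`. The members below `X` are products normalised by `X`, hence normalised by `Y`.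
So `Y ⊓ N(X)` is a `p`-subgroup of `N`; it is normalised by `N` (an element which normalises `X`
normalises `Y`), so `Y ⊓ N(X) ≤ X`, and `X = Y` by the normaliser condition in `Y` (compare
`Pool/Agent/helper71/DD/OPX.lean`). -/
def TPR_stmt : Prop :=
  ∀ (G T : Type) [Group G] [Finite G] [Fintype T] (p : ℕ), p.Prime →
    ∀ C : List (Subgroup (T → G)), Radical p C → ∀ R ∈ C, R = Subgroup.pi Set.univ (fun t => cmp t R)

/-- The normaliser of a chain of products. -/
def TNC_stmt : Prop :=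
  ∀ (G T : Type) [Group G] [Fintype T] (C : List (Subgroup (T → G))),
    (∀ R ∈ C, R = Subgroup.pi Set.univ (fun t => cmp t R)) →
    NC C = Subgroup.pi Set.univ (fun t => NC (C.map (cmp t)))

/-- Irreducible characters of finite products. Proof: induction on `T`
(`Fintype.induction_empty_option`) from `all_IRG` and `TRI`; for empty `T` the group is trivial. -/
def TIR_stmt : Prop :=
  ∀ (T : Type) [Fintype T] (H : T → Type) [∀ t, Group (H t)] [∀ t, Finite (H t)]
    (ψ : (∀ t, H t) → ℂ), ψ ∈ Irr (∀ t, H t) ↔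
      ∃ χ : ∀ t, H t → ℂ, (∀ t, χ t ∈ Irr (H t)) ∧ ψ = fun x => ∏ t, χ t (x t)

/-- Irreducible characters of the product of the subgroups `N t` of `G`. Proof: TIR and TRI for the
obvious isomorphism of `Subgroup.pi Set.univ N` with `∀ t, N t`. Uses: TIR. -/
def TIS_stmt : Prop :=
  ∀ (G T : Type) [Group G] [Finite G] [Fintype T] (N : T → Subgroup G)
    (ψ : ↥(Subgroup.pi Set.univ N) → ℂ), ψ ∈ Irr ↥(Subgroup.pi Set.univ N) ↔
      ∃ ψ' : ∀ t, N t → ℂ, (∀ t, ψ' t ∈ Irr (N t)) ∧ ψ = tps N ψ'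

/-- Central characters of products: conjugacy in `T → G` is conjugacy of all components. -/
def TOM_stmt : Prop :=
  ∀ (G T : Type) [Group G] [Finite G] [Fintype T] (g : T → G),
    (∀ χ : G → ℂ, omega (tpow T χ) g = ∏ t, omega χ (g t)) ∧
    ∀ (N : T → Subgroup G) (ψ : ∀ t, N t → ℂ),
      omInd (Subgroup.pi Set.univ N) (tps N ψ) g = ∏ t, omInd (N t) (ψ t) (g t)

/-- `Fixes` for products is componentwise. Proof as in `STB_fix` of `Pool/Agent/helper60/DD/STB.lean`: for
`→` use functions with one nontrivial component (`Pi.mulSingle`). -/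
def TFC_stmt : Prop :=
  ∀ (G E T : Type) [Group G] [Group E] [Fintype T] (ι : G →* E) (S : Set (Subgroup (T → G))),
    (∀ R ∈ S, R = Subgroup.pi Set.univ (fun t => cmp t R)) →
    ∀ (N : T → Subgroup G) (ψ : ∀ t, N t → ℂ), (∀ t, ψ t 1 ≠ 0) → ∀ e : T → E,
      (Fixes (ι.compLeft T) S (Subgroup.pi Set.univ N) (tps N ψ) e ↔
        ∀ t, Fixes ι (cmp t '' S) (N t) (ψ t) (e t))

/-- The product formula for `n + 1` equal factors and `U = E`, written on `T → G`. Proof: induction on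
`n` with TRP: for `n = 0` the group `T → G` is isomorphic to `G`; `(T → G) ≃ (T' → G) × G` for
`T ≃ Option T'`, and `all_PRD`, `Case.poly_pw`, `Polynomial.coeff_mul`, `⊤.prod ⊤ = ⊤`. Uses: TRP. -/
def PWR_stmt : Prop :=
  ∀ (p : ℕ) [Fact p.Prime] (M : Ideal (integralClosure ℤ ℂ)) (X : Case p M), X.U = ⊤ →
    ∀ (n : ℕ) (T : Type) [Fintype T], Fintype.card T = n + 1 → ∀ d : ℕ,
      altQ p M (X.ι.compLeft T) (tpow T X.χ) d ⊤ = (((X.poly) ^ (n + 1)).coeff d : ℚ)

/-! ## H. The groups `K ≤ W ≤ E'` -/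

/-- The tower `G^Q ≤ G ≀ Q ≤ E'`. Proof: `(f, c) ↦ (f(1) mod G, c)` is a homomorphism from `E'` onto
`E / G × Q` with kernel `K`; `W` is the preimage of `1 × Q`, `V₀` the preimage of `E / G × 1`. The orders
of `E / G` (a divisor of `|E|`) and of `Q` are coprime, so a subgroup `V` with `K ≤ V`, `V ∩ W = K`,
`V W = E'` has an image of order `|E / G|`, whose elements have trivial component in `Q`
(`c^|E| = 1` and `c^q = 1`), so `V = V₀`. `V₀` has prime index `q`. -/
def TOW_stmt : Prop :=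
  ∀ (G E : Type) [Group G] [Finite G] [Group E] [Finite E] (ι : G →* E) (hn : ι.range.Normal),
    Function.Injective ι → ∀ (Q : Type) [Group Q] [Fintype Q], (Nat.card Q).Prime →
    Nat.Coprime (Nat.card Q) (Nat.card E) →
    Tower (Nat.card Q) (Nat.card E) (κι G Q) (wι ι hn Q) (V0 ι hn Q)

/-- The sums for `K` and the subgroups `E'` and `V₀` of `E'` add up to the sum for `E^Q`. Proof: for each
radical chain `C` of `K = G^Q` (TPR, TNC) and each `ψ = tps ψ_t ∈ Irr (NC C)` (TIS) let `V ≤ E'` be the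
subgroup of STS. Then `V ∈ {V₀, ⊤}` iff `V₀ ≤ V` (`Tower.V0m`, TOW) iff for all `f ∈ E^Q` with all `f t`
congruent modulo `G` there is `g ∈ K` such that `f ι(g)` fixes `(C, ψ)`. This is equivalent to the same
for all `f ∈ E^Q` (`StabIs (ι.compLeft Q) .. ⊤`): for given `f` and `t` apply it to the constant
function `f t`, which gives `g^(t)`, and put `g t = g^(t) t`; use TFC. So `kset` for `E^Q`, `⊤` is the
disjoint union of `kset` for `E'`, `⊤` and for `E'`, `V₀`. Uses: TPR, TNC, TIS, TFC, STS, TOW. -/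
def PWF_stmt : Prop :=
  ∀ (p : ℕ), p.Prime → ∀ (M : Ideal (integralClosure ℤ ℂ)) (G E : Type) [Group G] [Finite G]
    [Group E] [Finite E] (ι : G →* E) (hn : ι.range.Normal), Function.Injective ι →
    ∀ (Q : Type) [Group Q] [Fintype Q], (Nat.card Q).Prime →
    Nat.Coprime (Nat.card Q) (Nat.card E) → ∀ (χ : G → ℂ) (d : ℕ),
      altQ p M ((wι ι hn Q).comp (κι G Q)) (tpow Q χ) d ⊤ +
        altQ p M ((wι ι hn Q).comp (κι G Q)) (tpow Q χ) d (V0 ι hn Q) =
      altQ p M (ι.compLeft Q) (tpow Q χ) d ⊤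

/-- Radical chains of `W` and of a normal subgroup `K` of prime index `q ≠ p`. Proof: `p`-subgroups of `W`
lie in `κ(K)`. (1) Let `R = O_p(H.comap κ)` (OPE). For `h ∈ H` the conjugate by `h` is again
`O_p(H.comap κ)`, so `κ(R)` is normal in `H`, and `O_p(H) = κ(R)`. (2) elements (`κ` is injective; the
normaliser of `κ(P)`). (3) if `Radical p C'` all members of `C'` are `p`-groups, so `C' = cW κ C` for
`C = C'.map (Subgroup.comap κ)`; then compare the definitions of `Radical p (cW κ C)` and `Radical p C`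
with (1) and (2); `Subgroup.map κ` is strictly monotone. -/
def CHQ_stmt : Prop :=
  ∀ (p q : ℕ), p.Prime → q.Prime → q ≠ p → ∀ (K W : Type) [Group K] [Finite K] [Group W]
    [Finite W] (κ : K →* W), Function.Injective κ → κ.range.Normal →
    Nat.card W = q * Nat.card K →
    (∀ H P : Subgroup W, IsOp p H P ↔ ∃ P₀, P = P₀.map κ ∧ IsOp p (H.comap κ) P₀) ∧
    (∀ C : List (Subgroup K), (NC (cW κ C)).comap κ = NC C) ∧
    ∀ C' : List (Subgroup W), Radical p C' ↔ ∃ C, Radical p C ∧ C' = cW κ C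

/-! ## J. Clifford theory for the index `q` -/

/-- A linear character with kernel `A`. Proof: `B / A` has prime order, so it is isomorphic to
`Multiplicative (ZMod q)`; compose with an injective homomorphism to the `q`-th roots of unity. -/
def LAM_stmt : Prop :=
  ∀ (B : Type) [Group B] [Finite B] (A : Subgroup B), A.Normal → ∀ q : ℕ, q.Prime →
    Nat.card B = q * Nat.card A → ∃ lam : B →* ℂˣ, (∀ b, lam b = 1 ↔ b ∈ A) ∧ ∀ b, lam b ^ q = 1

/-- Every irreducible character of a subgroup lies under some irreducible character. Proof: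
otherwise the class function `F(b) = ∑_(c ∈ B) ψ°(c b c⁻¹)`, `ψ°(j a) = ψ(a)`, `ψ° = 0` outside `j(A)`,
is orthogonal to all `φ ∈ Irr B`, so `F = 0` by CPL, but `F(1) = |B| ψ(1)`. -/
def CLE_stmt : Prop :=
  ∀ (A B : Type) [Group A] [Group B] [Finite A] [Finite B] (j : A →* B), Function.Injective j →
    ∀ ψ ∈ Irr A, ∃ φ ∈ Irr B, Ovr j φ ψ

/-- Clifford's formula. For a set `Z` of elements of `A` which is invariant under conjugation by `B`:
`(∑_Z φ) / φ(1) = (∑_Z ψ) / ψ(1)`. Proof: `z = ∑_(x ∈ Z) j(x)` commutes with `B`, so acts on the module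
`V` of `φ` by the scalar `c = (∑_Z φ) / φ(1)` (trace), and on the module `U` of `ψ` (over `A`) by
`c' = (∑_Z ψ) / ψ(1)`. By `card_inv_mul_sum_char_mul_char_eq_finrank` there is a nonzero `A`-map
`U → V`, so `c = c'`. -/
def CLS_stmt : Prop :=
  ∀ (A B : Type) [Group A] [Group B] [Finite A] [Finite B] (j : A →* B), Function.Injective j →
    j.range.Normal → ∀ φ ∈ Irr B, ∀ ψ ∈ Irr A, Ovr j φ ψ →
    ∀ Z : Set A, (∀ (b : B) (x y : A), j y = b * j x * b⁻¹ → x ∈ Z → y ∈ Z) →
      (∑ᶠ x ∈ Z, φ (j x)) * ψ 1 = φ 1 * ∑ᶠ x ∈ Z, ψ x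

/-- Clifford theory, invariant characters. Let `lam` be as in LAM. (1) By CLS for the `B`-class `Z` of
`x` one has `φ ∘ j = e ψ` with `e = φ(1) / ψ(1)`. The norm of `φ ∘ j` is
`∑_(x ∈ A) |φ(j x)|² / |A| = (1/|B|) ∑_k ∑_b |φ(b)|² lam(b)^k`, which is the number of `k < q` with
`φ lam^k = φ`, so it is `1` or `q`. But it is `e²` and `e` is a nonnegative integer (the dimension of a
space of intertwining maps), so `e = 1`. (2) by CLE there is an extension `φ`; for another extension `φ'`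
`∑_k ∑_b φ'(b) φ(b⁻¹) lam(b)^k = q ∑_(x ∈ A) ψ(x) ψ(x⁻¹) = |B|`, so `φ' = φ lam^k` for exactly one `k`
(product of an irreducible character with a linear one is irreducible; orthogonality). Hence there
are exactly `q` extensions. Uses: LAM, CLE, CLS. -/
def CLA_stmt : Prop :=
  ∀ (A B : Type) [Group A] [Group B] [Finite A] [Finite B] (j : A →* B), Function.Injective j →
    j.range.Normal → ∀ q : ℕ, q.Prime → Nat.card B = q * Nat.card A → ∀ ψ ∈ Irr A, Ivt j ψ →
    (∀ φ ∈ Irr B, Ovr j φ ψ → ∀ x, φ (j x) = ψ x) ∧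
    {φ | φ ∈ Irr B ∧ Ovr j φ ψ}.ncard = q ∧
    ∀ φ ∈ Irr B, ∀ φ' ∈ Irr B, Ovr j φ ψ → Ovr j φ' ψ → ∃ lam : B →* ℂˣ,
      (∀ x, lam (j x) = 1) ∧ (∀ b, lam b ^ q = 1) ∧ ∀ b, φ' b = φ b * lam b

/-- Clifford theory, characters which are not invariant. (1) `φ lies over ψ`: `φ ∘ j` is not
irreducible (otherwise `φ ∘ j = ψ` and `ψ` is invariant), so its norm is not `1` (NRM) and by the formula
for the norm in CLA `φ lam^k = φ` for all `k`, so `φ` vanishes outside `j(A)`. (2) For two such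
`φ, φ'` CLS gives `φ(j x) / φ(1) = φ'(j x) / φ'(1)`, so `φ, φ'` are proportional, hence equal
(`linInd_Irr`); existence by CLE. (3) By CLS `φ ∘ j` is a multiple of the sum of all conjugates of
`ψ`; so the `ψ'` under `φ` are exactly the conjugates of `ψ`; the stabiliser of `ψ` contains `j(A)` and is
not `B`, so it has index `q`, and there are `q` conjugates. (4) `φ ∘ j = c ∑ ψ'` (sum over the `q`
conjugates), `c = φ(1) / (q ψ(1)) > 0`, and by (1) the norm of `φ ∘ j` is `q`, so `c = 1`.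
Uses: LAM, CLE, CLS. -/
def CLB_stmt : Prop :=
  ∀ (A B : Type) [Group A] [Group B] [Finite A] [Finite B] (j : A →* B), Function.Injective j →
    j.range.Normal → ∀ q : ℕ, q.Prime → Nat.card B = q * Nat.card A → ∀ ψ ∈ Irr A, ¬ Ivt j ψ →
    {φ | φ ∈ Irr B ∧ Ovr j φ ψ}.ncard = 1 ∧
    ∀ φ ∈ Irr B, Ovr j φ ψ → φ 1 = q * ψ 1 ∧ (∀ b, b ∉ j.range → φ b = 0) ∧
      {ψ' | ψ' ∈ Irr A ∧ Ovr j φ ψ'}.ncard = q ∧
      ∀ ψ' ∈ Irr A, Ovr j φ ψ' → ¬ Ivt j ψ' ∧ ∃ b : B, ∀ x y : A, j y = b * j x * b⁻¹ → ψ' x = ψ y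

/-- Counting. Double counting of the pairs `(φ, ψ)` with `Ovr j φ ψ`: over an invariant `ψ` there are
`q` characters `φ`, each over `ψ` only (`φ ∘ j = ψ`); over a non-invariant `ψ` there is one `φ`, which
lies over `q` characters, none of them invariant; every `φ` lies over some `ψ` (decompose `φ ∘ j`, or
CPL for the class function `φ ∘ j` on `A`). Uses: CLA, CLB. -/
def CLN_stmt : Prop :=
  ∀ (A B : Type) [Group A] [Group B] [Finite A] [Finite B] (j : A →* B), Function.Injective j →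
    j.range.Normal → ∀ q : ℕ, q.Prime → Nat.card B = q * Nat.card A →
    ∀ (PB : (B → ℂ) → Prop) (PA : (A → ℂ) → Prop),
    (∀ φ ∈ Irr B, ∀ ψ ∈ Irr A, Ovr j φ ψ → (PB φ ↔ PA ψ)) →
    ({φ | φ ∈ Irr B ∧ PB φ}.ncard : ℚ) = q * {ψ | ψ ∈ Irr A ∧ Ivt j ψ ∧ PA ψ}.ncard +
      1 / q * {ψ | ψ ∈ Irr A ∧ ¬ Ivt j ψ ∧ PA ψ}.ncard

/-- Stabilisers, `N = N_W(C)` not contained in `K`, `ψ` invariant under `N`. Write `S` for the group of all
`e` which fix `(C, ψ)` (STS), `V = S K`. Then `φ ∘ j = ψ` (CLA). CLAIM: `e` fixes `(cW κ C, φ)` iff `e ∈ S`.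
`→` is clear. `←`: `φ^e(x) = φ(e x e⁻¹)` is an irreducible character of `N` over `ψ`, so `φ^e = φ lam` with
`lam` as in CLA. As `e x e⁻¹ x⁻¹ ∈ K` (`Tower.comm`), `lam(e x e⁻¹) = lam x` and `φ^(e^k) = φ lam^k`. But
`e^m = ω w` (`Tower.pow`) and `w` fixes `C`, so `w ∈ N` and `φ lam^m = φ`; also `lam^q = 1`, and `m`, `q` are
coprime, so `φ lam = φ`. Now `N` contains an element outside `K` and all of `N` lies in `S`, so `V`
contains `W` (`|W : K|` is prime). So `StabIs .. φ ⊤` iff `S W = E` iff `V = E`. And `V = V₀` is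
impossible by `Tower.V0i`. Uses: STS, CLA, CHQ. -/
def SQA_stmt : Prop :=
  ∀ (p q m : ℕ), p.Prime → q.Prime → q ≠ p → Nat.Coprime q m → ∀ (K W E : Type) [Group K]
    [Finite K] [Group W] [Finite W] [Group E] (κ : K →* W) (ω : W →* E) (V₀ : Subgroup E),
    Tower q m κ ω V₀ → ∀ C : List (Subgroup K),
    Nat.card (NC (cW κ C)) = q * Nat.card ((NC (cW κ C)).comap κ) →
    ∀ φ ∈ Irr (NC (cW κ C)), ∀ ψ ∈ Irr ((NC (cW κ C)).comap κ),
    Ovr (κ.subgroupComap (NC (cW κ C))) φ ψ → Ivt (κ.subgroupComap (NC (cW κ C))) ψ →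
    (StabIs ω {P | P ∈ cW κ C} (NC (cW κ C)) φ ⊤ ↔
      StabIs (ω.comp κ) {P | P ∈ C} ((NC (cW κ C)).comap κ) ψ ⊤) ∧
    ¬ StabIs (ω.comp κ) {P | P ∈ C} ((NC (cW κ C)).comap κ) ψ V₀

/-- Stabilisers, `N = N_W(C)` not contained in `K`, `ψ` not invariant under `N`. Notation as in SQA.
`V ∩ W = K`: an element `s k` (`s ∈ S`, `k ∈ K`) of `W` has `s ∈ W`, so `s ∈ N` fixes `ψ`; if `s` is not in
`K`, then `N` is generated by `N ∩ K` and `s` and `ψ` would be invariant. So `StabIs .. ψ ⊤` is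
impossible. If `StabIs .. φ ⊤`: for every `e` there is `w` such that `e w` fixes `C` and `φ`; then
`ψ^(e w)` lies under `φ`, so it is `ψ^n`, `n ∈ N` (CLB), and `e w n⁻¹ ∈ S`; so `V W = E` and `V = V₀`
(`Tower.V0u`). If `V = V₀`: for every `e` there are `v ∈ V₀`, `w` with `e = v ω w`, `v = s k`, so
`e w⁻¹ k⁻¹ = s` (up to the normality of `K`) is in `S`; and `s ∈ S` fixes `φ`, the only character over
`ψ` (CLB). Uses: STS, CLB, CHQ. -/
def SQB_stmt : Prop :=
  ∀ (p q m : ℕ), p.Prime → q.Prime → q ≠ p → Nat.Coprime q m → ∀ (K W E : Type) [Group K]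
    [Finite K] [Group W] [Finite W] [Group E] (κ : K →* W) (ω : W →* E) (V₀ : Subgroup E),
    Tower q m κ ω V₀ → ∀ C : List (Subgroup K),
    Nat.card (NC (cW κ C)) = q * Nat.card ((NC (cW κ C)).comap κ) →
    ∀ φ ∈ Irr (NC (cW κ C)), ∀ ψ ∈ Irr ((NC (cW κ C)).comap κ),
    Ovr (κ.subgroupComap (NC (cW κ C))) φ ψ → ¬ Ivt (κ.subgroupComap (NC (cW κ C))) ψ →
    (StabIs ω {P | P ∈ cW κ C} (NC (cW κ C)) φ ⊤ ↔
      StabIs (ω.comp κ) {P | P ∈ C} ((NC (cW κ C)).comap κ) ψ V₀) ∧
    ¬ StabIs (ω.comp κ) {P | P ∈ C} ((NC (cW κ C)).comap κ) ψ ⊤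

/-- Stabilisers, `N = N_W(C)` contained in `K`. Then `j : N.comap κ → N` is an isomorphism, an
element fixes `(cW κ C, φ)` iff it fixes `(C, φ ∘ j)`, and `S ∩ W = N ≤ K`. So `V ∩ W = K`, and
`StabIs .. φ ⊤` iff `S W = E` iff `V W = E` iff `V = V₀` (`Tower.V0u`, `V0s`). Uses: STS, CHQ. -/
def SQC_stmt : Prop :=
  ∀ (p q m : ℕ), p.Prime → q.Prime → q ≠ p → Nat.Coprime q m → ∀ (K W E : Type) [Group K]
    [Finite K] [Group W] [Finite W] [Group E] (κ : K →* W) (ω : W →* E) (V₀ : Subgroup E),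
    Tower q m κ ω V₀ → ∀ C : List (Subgroup K), NC (cW κ C) ≤ κ.range →
    ∀ φ : NC (cW κ C) → ℂ,
    (StabIs ω {P | P ∈ cW κ C} (NC (cW κ C)) φ ⊤ ↔
      StabIs (ω.comp κ) {P | P ∈ C} ((NC (cW κ C)).comap κ)
        (fun x => φ (κ.subgroupComap (NC (cW κ C)) x)) V₀) ∧
    ¬ StabIs (ω.comp κ) {P | P ∈ C} ((NC (cW κ C)).comap κ)
        (fun x => φ (κ.subgroupComap (NC (cW κ C)) x)) ⊤

/-- The formula for one chain. Proof: `N = NC (cW κ C)`, `N₀ = N.comap κ` (`= NC C` by CHQ);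
`|N| = |N₀|` or `|N| = q |N₀|`. In the second case apply CLN to `N₀ → N` with `PB φ`: `Defc p φ d`,
`Induces`, `StabIs .. ⊤`, and `PA ψ`: `Defc p ψ d`, `Induces`, `StabIs .. ⊤` or `StabIs .. V₀` (they are
equivalent for `Ovr j φ ψ`: `φ(1) = ψ(1)` (CLA) or `q ψ(1)` (CLB), `v_p q = 0`; the
hypothesis on blocks; SQA, SQB); by SQA, SQB the two sets in CLN are `kset` for `⊤` and for `V₀`.
In the first case `φ ↦ φ ∘ j` is a bijection from `kset` for `W`, `⊤` onto `kset` for `K`, `V₀` (TRI, SQC),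
and `kset` for `K`, `⊤` is empty; `|W| = q |K|`. Uses: CHQ, CLN, CLA, CLB, CLS, SQA, SQB, SQC. -/
def IQC_stmt : Prop :=
  ∀ (p q m : ℕ), p.Prime → q.Prime → q ≠ p → Nat.Coprime q m → ∀ (K W E : Type) [Group K]
    [Finite K] [Group W] [Finite W] [Group E] (κ : K →* W) (ω : W →* E) (V₀ : Subgroup E),
    Tower q m κ ω V₀ → ∀ (M : Ideal (integralClosure ℤ ℂ)) (χ : K → ℂ) (χ' : W → ℂ) (d : ℕ)
    (C : List (Subgroup K)),
    (∀ φ ∈ Irr (NC (cW κ C)), ∀ ψ ∈ Irr ((NC (cW κ C)).comap κ), Defc p φ d →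
      Ovr (κ.subgroupComap (NC (cW κ C))) φ ψ →
      (Induces M (NC (cW κ C)) χ' φ ↔ Induces M ((NC (cW κ C)).comap κ) χ ψ)) →
    (kC p M ω χ' (cW κ C) d ⊤ : ℚ) * Nat.card (NC (cW κ C)) / Nat.card W =
      (q * (kC p M (ω.comp κ) χ C d ⊤ : ℚ) + 1 / q * (kC p M (ω.comp κ) χ C d V₀ : ℚ)) *
        Nat.card (NC C) / Nat.card K

/-- The formula for the sums. Proof: sum IQC over all radical chains; by CHQ `C ↦ cW κ C` is a
bijection of the radical chains of `K` and of `W` which preserves the length. Uses: CHQ, IQC. -/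
def IQA_stmt : Prop :=
  ∀ (p q m : ℕ), p.Prime → q.Prime → q ≠ p → Nat.Coprime q m → ∀ (K W E : Type) [Group K]
    [Finite K] [Group W] [Finite W] [Group E] (κ : K →* W) (ω : W →* E) (V₀ : Subgroup E),
    Tower q m κ ω V₀ → ∀ (M : Ideal (integralClosure ℤ ℂ)) (χ : K → ℂ) (χ' : W → ℂ) (d : ℕ),
    (∀ C : List (Subgroup K), Radical p C → ∀ φ ∈ Irr (NC (cW κ C)),
      ∀ ψ ∈ Irr ((NC (cW κ C)).comap κ), Defc p φ d →
      Ovr (κ.subgroupComap (NC (cW κ C))) φ ψ →
      (Induces M (NC (cW κ C)) χ' φ ↔ Induces M ((NC (cW κ C)).comap κ) χ ψ)) →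
    altQ p M ω χ' d ⊤ =
      q * altQ p M (ω.comp κ) χ d ⊤ + 1 / q * altQ p M (ω.comp κ) χ d V₀

/-! ## K. Blocks of wreath products -/

/-- Values of central characters outside the base group. Proof: let `f` be injective, `x : A` with
`c = (f x).right ≠ 1`, so `c` generates `Q`. If `a ∈ A` commutes with `x` and `f a = (h, 1)`, then
`f x = (b, c)` gives `h(c⁻¹ t) = b(t)⁻¹ h(t) b(t)` for all `t`, so `h` is determined by `h(1)` and
`h ↦ h(1)` is an injective homomorphism on the group of these `a`; so its order divides `|G|`, and it has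
index `1` or `q` in the centraliser. As `q ≠ p` we get `v_p |C_A(x)| ≤ v_p |G| < q ≤ d =
v_p |A| - v_p(φ(1))`, so `v_p` of the class length `|A| / |C_A(x)|` is greater than `v_p(φ(1))`. Write
class length `= p^(k+1) s`, `φ(1) = p^k r` with `r` prime to `p`: `r * omega φ x = p s φ(x) ∈ M`, and
`omega φ x` is an algebraic integer (`all_INN`), `r ∉ M`, so `omega φ x ∈ M`. -/
def BVV_stmt : Prop :=
  ∀ (p : ℕ), p.Prime → ∀ (M : Ideal (integralClosure ℤ ℂ)), M.IsMaximal →
    (p : integralClosure ℤ ℂ) ∈ M → ∀ (G Q : Type) [Group G] [Finite G] [Group Q] [Fintype Q],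
    (Nat.card Q).Prime → Nat.card Q ≠ p → padicValNat p (Nat.card G) < Nat.card Q →
    ∀ (A : Type) [Group A] [Finite A] (f : A →* Wr G Q), Function.Injective f → ∀ φ ∈ Irr A,
    ∀ d : ℕ, Defc p φ d → Nat.card Q ≤ d → ∀ x : A, (f x).right ≠ 1 →
    ∃ a ∈ M, omega φ x = ((a : integralClosure ℤ ℂ) : ℂ)

/-- The same for `omInd`. Proof: `omInd N φ g` is the sum of the `omega φ x` over representatives `x` of the
`N`-classes of elements conjugate to `g` in `W` (`sum_class`), and `x.right ≠ 1` for all of them.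
Uses: BVV. -/
def BVW_stmt : Prop :=
  ∀ (p : ℕ), p.Prime → ∀ (M : Ideal (integralClosure ℤ ℂ)), M.IsMaximal →
    (p : integralClosure ℤ ℂ) ∈ M → ∀ (G Q : Type) [Group G] [Finite G] [Group Q] [Fintype Q],
    (Nat.card Q).Prime → Nat.card Q ≠ p → padicValNat p (Nat.card G) < Nat.card Q →
    ∀ (N : Subgroup (Wr G Q)), ∀ φ ∈ Irr N,
    ∀ d : ℕ, Defc p φ d → Nat.card Q ≤ d → ∀ g : Wr G Q, g.right ≠ 1 →
    ∃ a ∈ M, omInd N φ g = ((a : integralClosure ℤ ℂ) : ℂ)

/-- Values on the base group. Proof: let `r` be the number of `c ∈ Q` such that `shift c g` is conjugate to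
`g` in `K = G^Q`: the order of a subgroup of `Q`. `(h, 1)` is conjugate in `W` to `(g, 1)` iff `h` is
conjugate in `K` to `shift c g` for some `c`, and then for exactly `r` elements `c`. So
`∑_c ∑_(x ∈ N₀, x ~ shift c g) ψ(x) = r ∑_(x ∈ Z) ψ(x)`, `Z = {x ∈ N₀ : (x, 1) ~_W (g, 1)}`, and by CLS
`(∑_Z ψ) / ψ(1) = (∑_Z φ) / φ(1) = omInd N φ (g, 1)` (elements of `N` conjugate to `(g, 1)` lie in `K`). The second
formula is the same computation. Uses: CLS. -/
def OBF_stmt : Prop :=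
  ∀ (G Q : Type) [Group G] [Finite G] [Group Q] [Fintype Q] (N : Subgroup (Wr G Q)),
    ∀ φ ∈ Irr N, ∀ ψ ∈ Irr (N.comap (κι G Q)), Ovr ((κι G Q).subgroupComap N) φ ψ →
    ∀ (χ' : Wr G Q → ℂ), (∀ g h, χ' (h * g * h⁻¹) = χ' g) → ∀ g : Q → G, ∃ r : ℕ, r ∣ Nat.card Q ∧
      ∑ c : Q, omInd (N.comap (κι G Q)) ψ (shift G Q c g) = r * omInd N φ (κι G Q g) ∧
      ∑ c : Q, omega (fun x => χ' (κι G Q x)) (shift G Q c g) = r * omega χ' (κι G Q g)

/-- Linear algebra. Extend `a t` and `b` linearly to the vector space `F` of finitely supported functions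
`G → k`; the identity extends to all `z : Q → F` by multilinearity. STEP 1: for `z ∈ ker b` take
`z t = z` for all `t`: `|Q| ∏_t a_t(z) = 0`, so `ker b` is contained in the union of the `ker a_t`; as `k` is
infinite (`Subspace.exists_eq_top_of_iUnion_eq_univ`) `ker b ≤ ker a_t` for some `t`, and
`a_t = b` since both are `1` at `1`. STEP 2: let `J = {t : a_t ≠ b}`, `J ≠ Q`. Suppose `J ≠ ∅`. For
`t ∈ J` `ker b` is not contained in `ker a_t`, so there is `z ∈ ker b` with `a_t(z) ≠ 0` for all `t ∈ J`. Take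
`z_t = z` for `t ∈ J` and `z_t = 1` otherwise. The right side is `0`. The term of `c` on the left is
`∏_(t ∈ c J) a_t(z)`, which is `0` unless `c J = J`; as `Q` has prime order and `∅ ≠ J ≠ Q` this
happens only for `c = 1`, and this term is not `0`: a contradiction. -/
def LAL_stmt : Prop :=
  ∀ (k : Type) [Field k] [Infinite k] (Q : Type) [Group Q] [Fintype Q], (Nat.card Q).Prime →
    (Nat.card Q : k) ≠ 0 → ∀ (G : Type) [Group G] (a : Q → G → k) (b : G → k),
    (∀ t, a t 1 = 1) → b 1 = 1 →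
    (∀ g : Q → G, ∑ c : Q, ∏ t, a t (g (c⁻¹ * t)) = (Nat.card Q : k) * ∏ t, b (g t)) →
    ∀ t, a t = b

/-- The residue field is infinite. Proof: for `n` prime to `p` and a primitive `n`-th root of unity
`ζ`, `X^n - 1 = ∏ (X - ζ^i)` over the algebraic integers; modulo `M` the polynomial `X^n - 1` is
separable, so the residue field has at least `n` elements. (Or: it is algebraically closed.) -/
def INF_stmt : Prop :=
  ∀ (p : ℕ), p.Prime → ∀ (M : Ideal (integralClosure ℤ ℂ)), M.IsMaximal →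
    (p : integralClosure ℤ ℂ) ∈ M → Infinite (integralClosure ℤ ℂ ⧸ M)

/-- Blocks. Let `N = NC (cW κ C)`, `N₀ = N.comap κ = NC C` (CHQ), a product of subgroups `N_t` (TPR, TNC), and
`ψ = tps ψ_t` (TIS). `←`: for `g ∈ K` sum the congruences `omInd N₀ ψ (shift c g) ≡
omega (tpow χ) (shift c g)` over `c` and use OBF (`r` divides the prime `q ≠ p`, so `r ∉ M`); for `g` outside
`K` both sides are in `M` by BVW and BVV (for `χ'` with `A = W`, `f = id`). `→`: by OBF
`∑_c omInd N₀ ψ (shift c g) ≡ ∑_c omega (tpow χ) (shift c g) = q ∏_t omega χ (g t)` for all `g ∈ K`, and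
`omInd N₀ ψ (shift c g) = ∏_t omInd N_t ψ_t (g (c⁻¹ t))` (TOM). By LAL in the residue field (INF)
`omInd N_t ψ_t h ≡ omega χ h` for all `t`, `h` (all numbers are algebraic integers, `all_INN`), and by TOM
`Induces` for `ψ`. Uses: CHQ, TPR, TNC, TIS, TOM, OBF, BVW, BVV, LAL, INF. -/
def BHH_stmt : Prop :=
  ∀ (p : ℕ), p.Prime → ∀ (M : Ideal (integralClosure ℤ ℂ)), M.IsMaximal →
    (p : integralClosure ℤ ℂ) ∈ M → ∀ (G Q : Type) [Group G] [Finite G] [Group Q] [Fintype Q],
    (Nat.card Q).Prime → Nat.card Q ≠ p → padicValNat p (Nat.card G) < Nat.card Q →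
    ∀ χ ∈ Irr G, ∀ χ' ∈ Irr (Wr G Q), (∀ x, χ' (κι G Q x) = tpow Q χ x) →
    ∀ d₁ : ℕ, Defc p χ' d₁ → Nat.card Q ≤ d₁ → ∀ d : ℕ, Nat.card Q ≤ d →
    ∀ C : List (Subgroup (Q → G)), Radical p C → ∀ φ ∈ Irr (NC (cW (κι G Q) C)),
    ∀ ψ ∈ Irr ((NC (cW (κι G Q) C)).comap (κι G Q)), Defc p φ d →
    Ovr ((κι G Q).subgroupComap (NC (cW (κι G Q) C))) φ ψ →
    (Induces M (NC (cW (κι G Q) C)) χ' φ ↔
      Induces M ((NC (cW (κι G Q) C)).comap (κι G Q)) (tpow Q χ) ψ)

/-- The extension of `χ ⊗ ... ⊗ χ` to the wreath product. Proof: `tpow Q χ ∈ Irr (Q → G)` (TIR), it is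
invariant under `W`, so by CLA (`q > 0` characters over it, all extensions) there is an
extension `χ'`. `χ'(1) = χ(1)^q`, `|W| = q |G|^q`, `v_p(q) = 0`. Uses: TIR, CLA. -/
def EXC_stmt : Prop :=
  ∀ (p : ℕ), p.Prime → ∀ (G Q : Type) [Group G] [Finite G] [Group Q] [Fintype Q],
    (Nat.card Q).Prime → Nat.card Q ≠ p → ∀ χ ∈ Irr G, tpow Q χ ∈ Irr (Q → G) ∧
    (∀ d₀, Defc p χ d₀ → Defc p (tpow Q χ) (Nat.card Q * d₀)) ∧
    ∃ χ' ∈ Irr (Wr G Q), (∀ x, χ' (κι G Q x) = tpow Q χ x) ∧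
      ∀ d₀, Defc p χ d₀ → Defc p χ' (Nat.card Q * d₀)

end Pool.Agent.DD
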